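import Pool.Agent.Q206.SO.Phi

/-! # If `M ^ t v = T ^ s v` for some `t ≥ 1` and `v ≠ 0`, then this happens with `t = n!` -/

open LaurentPolynomial

namespace Pool.Agent.Q206.SO

theorem pow_eigen {S : Type} [CommRing S] {k : ℕ} (N : Matrix (Fin k) (Fin k) S) (a : S)
    (v : Fin k → S) (h : N.mulVec v = a • v) (m : ℕ) : (N ^ m).mulVec v = a ^ m • v := by
  induction m with
  | zero => simp
  | succ m ih => rw [pow_succ', ← Matrix.mulVec_mulVec, ih, Matrix.mulVec_smul, h, smul_smul, pow_succ]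

theorem map_mulVec_phi {p : ℕ} [Fact p.Prime] {k : ℕ} (N : Matrix (Fin k) (Fin k) (R p))
    (φ : R p →+* Rb p) (v : Fin k → R p) :
    (N.map φ).mulVec (φ ∘ v) = φ ∘ (N.mulVec v) := by
  ext1 i
  simp only [Matrix.mulVec, dotProduct, Matrix.map_apply, Function.comp_apply, map_sum, map_mul]

theorem map_pow_phi {p : ℕ} [Fact p.Prime] {k : ℕ} (N : Matrix (Fin k) (Fin k) (R p))
    (φ : R p →+* Rb p) (m : ℕ) : (N.map φ) ^ m = (N ^ m).map φ := by
  have h3 := map_pow (φ.mapMatrix : Matrix (Fin k) (Fin k) (R p) →+* _) N m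
  simp only [RingHom.mapMatrix_apply] at h3
  exact h3.symm

theorem alg (hroot : S_root) (hcoef : S_coef) (hord : S_ord)
    (p : ℕ) [Fact p.Prime] (k n t : ℕ) (s : ℤ) (M : Matrix (Fin k) (Fin k) (R p)) (v : Fin k → R p)
    (hn : p ^ k ≤ n) (ht : 1 ≤ t) (hv : v ≠ 0) (h : (M ^ t).mulVec v = (T s : R p) • v) :
    ∃ (u : ℤ) (v' : Fin k → R p), v' ≠ 0 ∧ (M ^ n.factorial).mulVec v' = (T u : R p) • v' := by
  have hφ := isPhi p t ht
  set φ := phi p t with hφd
  obtain ⟨hinj, hT, hc1, hc2⟩ := hφ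
  have hv0 : (φ ∘ v : Fin k → Rb p) ≠ 0 := by
    intro h0
    apply hv
    ext1 i
    apply hinj
    rw [Pi.zero_apply, map_zero]
    exact congrFun h0 i
  have h1 : ((M.map φ) ^ t).mulVec (φ ∘ v) = (T (t * s) : Rb p) • (φ ∘ v : Fin k → Rb p) := by
    rw [map_pow_phi, map_mulVec_phi, h]
    ext1 i
    simp only [Function.comp_apply, Pi.smul_apply, smul_eq_mul, map_mul, hT]
  obtain ⟨ρ, hρ, v1, hv1, h2⟩ := hroot p k t ((T (-s) : Rb p) • (M.map φ)) (φ ∘ v) ht hv0 (by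
    rw [smul_pow, Matrix.smul_mulVec, h1, smul_smul, T_pow, ← T_add]
    have : (t : ℤ) * -s + t * s = 0 := by ring
    rw [this, T_zero, one_smul])
  have hρ0 : ρ ≠ 0 := by
    rintro rfl
    rw [zero_pow (by omega)] at hρ
    exact zero_ne_one hρ
  have h3 : (M.map φ).mulVec v1 = (C ρ * T s : Rb p) • v1 := by
    rw [Matrix.smul_mulVec] at h2
    have h4 : (T s : Rb p) • (T (-s) : Rb p) • (M.map φ).mulVec v1 = (T s : Rb p) • (C ρ : Rb p) • v1 := by
      rw [h2]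
    rw [smul_smul, ← T_add, add_neg_cancel, T_zero, one_smul, smul_smul] at h4
    rw [h4, mul_comm]
  obtain ⟨g, hgk, hsum, hdiv⟩ := hcoef p k t s φ M ρ v1 ht ⟨hinj, hT, hc1, hc2⟩ hv1 h3
  obtain ⟨m1, hm1, hm1', hρm⟩ := hord p k ρ g hρ0 hgk hsum
  -- some lower coefficient is not zero
  obtain ⟨i, hik, hgi⟩ : ∃ i, i < k ∧ g i ≠ 0 := by
    by_contra hcon
    push Not at hcon
    rw [Finset.sum_range_succ, Finset.sum_eq_zero, zero_add, hgk, map_one, one_mul] at hsum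
    · exact pow_ne_zero k hρ0 hsum
    · intro i hi
      rw [hcon i (Finset.mem_range.mp hi), map_zero, zero_mul]
  have hkn : k ≤ n := (Nat.lt_pow_self (Fact.out : p.Prime).one_lt).le.trans hn
  have hd := hdiv i hik.le hgi
  have hdn : (k - i) ∣ n.factorial := Nat.dvd_factorial (by omega) (by omega)
  have hmn : m1 ∣ n.factorial := Nat.dvd_factorial (by omega) (by omega)
  obtain ⟨d', hd'⟩ := hdn
  have htd : (t : ℤ) ∣ (n.factorial : ℤ) * s := by
    have h5 : (n.factorial : ℤ) * s = s * ((k : ℤ) - i) * d' := by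
      rw [hd']
      push_cast [Nat.cast_sub hik.le]
      ring
    rw [h5]
    exact Dvd.dvd.mul_right hd _
  obtain ⟨u, hu⟩ := htd
  obtain ⟨c, hc⟩ := hmn
  have hρn : ρ ^ n.factorial = 1 := by rw [hc, pow_mul, hρm, one_pow]
  refine ⟨u, kern M φ hinj n.factorial (T u) v1 hv1 ?_⟩
  rw [pow_eigen _ _ _ h3, mul_pow, ← map_pow, hρn, map_one, one_mul, T_pow, hT, hu]

end Pool.Agent.Q206.SO
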