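import Pool.Agent.Q206.SO.Alg

/-! # The criterion: a configuration killed in one step, or reproduced after `n!` steps -/

open LaurentPolynomial

namespace Pool.Agent.Q206.SO

variable {A : Type} [AddCommGroup A] {r : ℕ} (h : Fin (2 * r + 1) → (A →+ A))

theorem ca_zero : ca h 0 = 0 := by
  ext1 i
  simp [ca]

theorem iter_zero (t : ℕ) : (ca h)^[t] 0 = 0 := by
  induction t with
  | zero => rfl
  | succ t ih => rw [Function.iterate_succ_apply, ca_zero, ih]

theorem ca_nsmul (p : ℕ) (z : ℤ → A) : ca h (p • z) = p • ca h z := by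
  ext1 i
  simp [ca, Finset.smul_sum]

theorem iter_nsmul (p t : ℕ) (z : ℤ → A) : (ca h)^[t] (p • z) = p • (ca h)^[t] z := by
  induction t generalizing z with
  | zero => rfl
  | succ t ih => rw [Function.iterate_succ_apply, ca_nsmul, ih, Function.iterate_succ_apply]

theorem ca_sh (s : ℤ) (z : ℤ → A) : ca h (sh s z) = sh s (ca h z) := by
  ext1 i
  simp only [ca, sh]
  refine Finset.sum_congr rfl fun j _ => ?_
  congr 2
  ring

theorem iter_sh (s : ℤ) (t : ℕ) (z : ℤ → A) : (ca h)^[t] (sh s z) = sh s ((ca h)^[t] z) := by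
  induction t generalizing z with
  | zero => rfl
  | succ t ih => rw [Function.iterate_succ_apply, ca_sh, ih, Function.iterate_succ_apply]

theorem iter_loc (m : ℕ) : ∀ (z z' : ℤ → A) (i j : ℤ),
    (∀ k : ℤ, |k| ≤ (r * m : ℕ) → z' (i + k) = z (j + k)) →
    (ca h)^[m] z' i = (ca h)^[m] z j := by
  induction m with
  | zero =>
    intro z z' i j hk
    have := hk 0 (by simp)
    simpa using this
  | succ m ih =>
    intro z z' i j hk
    rw [Function.iterate_succ_apply', Function.iterate_succ_apply']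
    simp only [ca]
    refine Finset.sum_congr rfl fun q _ => ?_
    congr 1
    apply ih
    intro k hk'
    have hq : (q : ℕ) < 2 * r + 1 := q.2
    have h1 := hk ((q : ℤ) - r + k) (by
      rw [abs_le] at hk' ⊢
      push_cast at hk' ⊢
      have : (q : ℤ) < 2 * r + 1 := by exact_mod_cast hq
      have h0 : (0 : ℤ) ≤ (q : ℤ) := by positivity
      constructor <;> nlinarith)
    have e1 : i + (q : ℤ) - r + k = i + ((q : ℤ) - r + k) := by ring
    have e2 : j + (q : ℤ) - r + k = j + ((q : ℤ) - r + k) := by ring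
    rw [e1, e2, h1]

/-- Cells at distance more than `r * m` from the support are zero after `m` steps. -/
theorem iter_far (m : ℕ) (z : ℤ → A) (i : ℤ)
    (hz : ∀ k : ℤ, |k| ≤ (r * m : ℕ) → z (i + k) = 0) : (ca h)^[m] z i = 0 := by
  have h1 := iter_loc h m 0 z i i (fun k hk => by rw [hz k hk]; rfl)
  rw [h1, iter_zero]
  rfl

theorem iter_fin (m : ℕ) (z : ℤ → A) (hz : {i | z i ≠ 0}.Finite) :
    {i | (ca h)^[m] z i ≠ 0}.Finite := by
  apply (Set.Finite.image2 (fun a b : ℤ => a - b) hz
    (Set.finite_Icc (-((r * m : ℕ) : ℤ)) ((r * m : ℕ) : ℤ))).subset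
  intro i hi
  by_contra hcon
  apply hi
  apply iter_far
  intro k hk
  by_contra hne
  apply hcon
  exact ⟨i + k, hne, k, abs_le.mp hk, by ring⟩

theorem fin_bound {S : Set ℤ} (hS : S.Finite) : ∃ D : ℕ, ∀ i ∈ S, ∀ j ∈ S, |i - j| ≤ D := by
  obtain ⟨b, hb⟩ := hS.bddAbove
  obtain ⟨a, ha⟩ := hS.bddBelow
  refine ⟨(b - a).toNat, fun i hi j hj => ?_⟩
  have h1 := hb hi
  have h2 := hb hj
  have h3 := ha hi
  have h4 := ha hj
  rw [abs_le]
  omega

theorem hasSoliton_of (z : ℤ → A) (hz : z ≠ 0) (hf : {i | z i ≠ 0}.Finite) (D : ℕ)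
    (hD : ∀ (t : ℕ) (i j : ℤ), (ca h)^[t] z i ≠ 0 → (ca h)^[t] z j ≠ 0 → |i - j| ≤ D) :
    HasSoliton (ca h) := by
  refine ⟨z, 0, hz, hf, D, fun t i j hi hj => hD t i j ?_ ?_⟩
  · rw [iter_zero] at hi
    exact hi
  · rw [iter_zero] at hj
    exact hj

theorem back (z : ℤ → A) (hz : z ≠ 0) (hf : {i | z i ≠ 0}.Finite)
    (hs : ca h z = 0 ∨ ∃ m : ℕ, 1 ≤ m ∧ ∃ s : ℤ, (ca h)^[m] z = sh s z) :
    HasSoliton (ca h) := by
  rcases hs with h0 | ⟨m, hm, s, h1⟩
  · obtain ⟨D, hD⟩ := fin_bound hf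
    refine hasSoliton_of h z hz hf D fun t i j hi hj => ?_
    rcases Nat.eq_zero_or_pos t with rfl | ht
    · exact hD i hi j hj
    · obtain ⟨t', rfl⟩ : ∃ t', t = t' + 1 := ⟨t - 1, by omega⟩
      rw [Function.iterate_succ_apply, h0, iter_zero] at hi
      exact absurd rfl hi
  · have h2 : ∀ q : ℕ, (ca h)^[m * q] z = sh (s * q) z := by
      intro q
      induction q with
      | zero => ext1 i; simp [sh]
      | succ q ih =>
        rw [Nat.mul_succ, Function.iterate_add_apply, h1, iter_sh, ih]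
        ext1 i
        simp only [sh]
        congr 1
        push_cast
        ring
    have h3 : ∀ t : ℕ, ∃ D : ℕ, ∀ i ∈ {i | (ca h)^[t] z i ≠ 0}, ∀ j ∈ {i | (ca h)^[t] z i ≠ 0},
        |i - j| ≤ D := fun t => fin_bound (iter_fin h t z hf)
    choose D hD using h3
    refine hasSoliton_of h z hz hf ((Finset.range m).sup D) fun t i j hi hj => ?_
    have h4 : (ca h)^[t] z = sh (s * (t / m : ℕ)) ((ca h)^[t % m] z) := by
      conv_lhs => rw [← Nat.mod_add_div t m]
      rw [Function.iterate_add_apply, h2, iter_sh]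
    have h5 : D (t % m) ≤ (Finset.range m).sup D :=
      Finset.le_sup (Finset.mem_range.mpr (Nat.mod_lt _ (by omega)))
    rw [h4] at hi hj
    have h6 := hD (t % m) _ hi _ hj
    have h7 : (i - s * ((t / m : ℕ) : ℤ)) - (j - s * ((t / m : ℕ) : ℤ)) = i - j := by ring
    rw [h7] at h6
    exact h6.trans (by exact_mod_cast h5)

/-- The shift in `F ^ m z = sh s z` is at most `r * m`. -/
theorem sh_bound (m : ℕ) (s : ℤ) (z : ℤ → A) (hz : z ≠ 0) (hf : {i | z i ≠ 0}.Finite)
    (h1 : (ca h)^[m] z = sh s z) : |s| ≤ (r * m : ℕ) := by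
  have hne : {i | z i ≠ 0}.Nonempty := by
    by_contra hcon
    rw [Set.not_nonempty_iff_eq_empty] at hcon
    apply hz
    ext1 i
    by_contra hi
    have : i ∈ {i | z i ≠ 0} := hi
    rw [hcon] at this
    exact this
  obtain ⟨a, ha, ha'⟩ := Set.exists_min_image _ id hf hne
  obtain ⟨b, hb, hb'⟩ := Set.exists_max_image _ id hf hne
  simp only [id] at ha' hb'
  rw [abs_le]
  constructor
  · by_contra hcon
    have h2 : (ca h)^[m] z (a + s) = 0 := by
      apply iter_far
      intro k hk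
      by_contra hne'
      have := ha' _ hne'
      rw [abs_le] at hk
      omega
    rw [h1] at h2
    simp only [sh, add_sub_cancel_right] at h2
    exact ha h2
  · by_contra hcon
    have h2 : (ca h)^[m] z (b + s) = 0 := by
      apply iter_far
      intro k hk
      by_contra hne'
      have := hb' _ hne'
      rw [abs_le] at hk
      omega
    rw [h1] at h2
    simp only [sh, add_sub_cancel_right] at h2
    exact hb h2

end Pool.Agent.Q206.SO
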