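import Pool.Agent.Q206.SO.Crit

/-! # The criterion, and the bound for the length of the configuration -/

open LaurentPolynomial

namespace Pool.Agent.Q206.SO

theorem crit (hroot : S_root) (hcoef : S_coef) (hord : S_ord) (hmat : S_mat) (htor : S_tor)
    (hpig : S_pig) (A : Type) [AddCommGroup A] [Finite A] (r : ℕ)
    (h : Fin (2 * r + 1) → (A →+ A)) :
    HasSoliton (ca h) ↔ ∃ z : ℤ → A, z ≠ 0 ∧ {i | z i ≠ 0}.Finite ∧
      (ca h z = 0 ∨ ∃ s : ℤ, (ca h)^[(Nat.card A).factorial] z = sh s z) := by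
  constructor
  · intro hs
    obtain ⟨p, hp, z, hz, hf, hpz, D, hD⟩ := htor A r h hs
    haveI : Fact p.Prime := ⟨hp⟩
    obtain ⟨t, hzt, h1⟩ := hpig A (ca h) z D (ca_zero h) hz hD
    have hf' := iter_fin h t z hf
    rcases h1 with h1 | ⟨u, hu, s, h1⟩
    · exact ⟨_, hzt, hf', Or.inl h1⟩
    · obtain ⟨k, hk, M, φ, hinj, hφ0, hφM, hφT, hφf, hφs⟩ := hmat A p r h
      have hpz' : p • z = 0 := by
        ext1 i
        exact hpz i
      obtain ⟨v, hv⟩ := hφs _ hf' (fun i => by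
        have h2 := congrFun (iter_nsmul h p t z) i
        rw [hpz', iter_zero] at h2
        exact h2.symm)
      have hiter : ∀ (m : ℕ) (w : Fin k → R p), φ ((M ^ m).mulVec w) = (ca h)^[m] (φ w) := by
        intro m
        induction m with
        | zero => intro w; simp
        | succ m ih =>
          intro w
          rw [pow_succ, ← Matrix.mulVec_mulVec, ih, hφM, Function.iterate_succ_apply]
      have hv0 : v ≠ 0 := by
        rintro rfl
        rw [hφ0] at hv
        exact hzt hv.symm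
      have h3 : (M ^ u).mulVec v = (T s : R p) • v := by
        apply hinj
        rw [hiter, hφT, hv, h1]
      obtain ⟨e, v', hv', h4⟩ := alg hroot hcoef hord p k (Nat.card A) u s M v hk hu hv0 h3
      refine ⟨φ v', ?_, hφf v', Or.inr ⟨e, ?_⟩⟩
      · intro h5
        apply hv'
        apply hinj
        rw [h5, hφ0]
      · rw [← hiter, h4, hφT]
  · rintro ⟨z, hz, hf, hs⟩
    refine back h z hz hf ?_
    rcases hs with hs | ⟨s, hs⟩
    · exact Or.inl hs
    · exact Or.inr ⟨_, Nat.factorial_pos _, s, hs⟩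

/-- The condition tested by the decision procedure. -/
def Cond {A : Type} [AddCommGroup A] {r : ℕ} (h : Fin (2 * r + 1) → (A →+ A)) (m : ℕ)
    (z : ℤ → A) : Prop :=
  ca h z = 0 ∨ ∃ s : ℤ, |s| ≤ (r * m : ℕ) ∧ (ca h)^[m] z = sh s z

theorem cond_loc {A : Type} [AddCommGroup A] {r : ℕ} (h : Fin (2 * r + 1) → (A →+ A)) (m : ℕ)
    (hm : 1 ≤ m) (z z' : ℤ → A) (hz : Cond h m z)
    (hw : ∀ i : ℤ, ∃ j : ℤ, ∀ k : ℤ, |k| ≤ (r * m : ℕ) → z' (i + k) = z (j + k)) :
    Cond h m z' := by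
  rcases hz with hz | ⟨s, hs, hz⟩
  · left
    ext1 i
    obtain ⟨j, hj⟩ := hw i
    have h1 := iter_loc h 1 z z' i j (fun k hk => hj k (hk.trans (by
      exact_mod_cast Nat.mul_le_mul_left r hm)))
    rw [Function.iterate_one] at h1
    rw [h1, hz]
    rfl
  · right
    refine ⟨s, hs, ?_⟩
    ext1 i
    obtain ⟨j, hj⟩ := hw i
    rw [iter_loc h m z z' i j hj, hz]
    have h1 := hj (-s) (by rw [abs_neg]; exact hs)
    simp only [sh, sub_eq_add_neg]
    exact h1.symm

theorem crit2 (hroot : S_root) (hcoef : S_coef) (hord : S_ord) (hmat : S_mat) (htor : S_tor)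
    (hpig : S_pig) (hpump : S_pump) (A : Type) [AddCommGroup A] [Finite A] (r : ℕ)
    (h : Fin (2 * r + 1) → (A →+ A)) :
    HasSoliton (ca h) ↔ ∃ z : ℤ → A, z 0 ≠ 0 ∧ (∀ i < 0, z i = 0) ∧
      (∀ i : ℤ, ((Nat.card A ^ (2 * (r * (Nat.card A).factorial)) : ℕ) : ℤ) < i → z i = 0) ∧
      Cond h (Nat.card A).factorial z := by
  rw [crit hroot hcoef hord hmat htor hpig A r h]
  constructor
  · rintro ⟨z, hz, hf, hs⟩
    refine hpump A (r * (Nat.card A).factorial) (Cond h (Nat.card A).factorial)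
      (fun z z' h1 h2 => cond_loc h _ (Nat.factorial_pos _) z z' h1 h2) ⟨z, hz, hf, ?_⟩
    rcases hs with hs | ⟨s, hs⟩
    · exact Or.inl hs
    · exact Or.inr ⟨s, sh_bound h _ s z hz hf hs, hs⟩
  · rintro ⟨z, hz, h0, h1, hs⟩
    refine ⟨z, ?_, ?_, ?_⟩
    · rintro rfl
      exact hz rfl
    · apply (Set.finite_Icc (0 : ℤ)
        ((Nat.card A ^ (2 * (r * (Nat.card A).factorial)) : ℕ) : ℤ)).subset
      intro i hi
      constructor
      · by_contra hcon
        exact hi (h0 i (not_le.mp hcon))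
      · by_contra hcon
        exact hi (h1 i (not_le.mp hcon))
    · rcases hs with hs | ⟨s, _, hs⟩
      · exact Or.inl hs
      · exact Or.inr ⟨s, hs⟩

end Pool.Agent.Q206.SO
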