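import Pool.Agent.Q206.SO.Crit2

/-! # The decision procedure tests the condition -/

namespace Pool.Agent.Q206.SO

variable {A : Type} [AddCommGroup A] {n : ℕ} (e : Fin n ≃ A) {r : ℕ}
  (h : Fin (2 * r + 1) → (A →+ A))

theorem iter_step (hstep : S_step) (m : ℕ) (l : List ℕ) (hl : ∀ a ∈ l, a < n) (off : ℤ) :
    (∀ a ∈ (stepL (code e h))^[m] l, a < n) ∧
      ((stepL (code e h))^[m] l).length = l.length + 2 * (r * m) ∧
      cfg e (off + (r * m : ℕ)) ((stepL (code e h))^[m] l) = (ca h)^[m] (cfg e off l) := by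
  induction m with
  | zero => simpa using hl
  | succ m ih =>
    obtain ⟨h1, h2, h3⟩ := ih
    obtain ⟨h4, h5, h6⟩ := (hstep A n e r h).2 _ h1
    rw [Function.iterate_succ_apply', Function.iterate_succ_apply']
    refine ⟨h4, ?_, ?_⟩
    · rw [h5, h2]
      ring
    · rw [← h3, ← h6]
      congr 1
      push_cast
      ring

theorem cfg_off (off off' : ℤ) (l : List ℕ) (i : ℤ) :
    cfg e off l i = cfg e off' l (i + off - off') := by
  simp only [cfg, sub_add_cancel]

theorem dc_zero_iff {a : ℕ} (ha : a < n) : dc e a = 0 ↔ a = (e.symm 0 : ℕ) := by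
  unfold dc
  rw [dif_pos ha]
  constructor
  · intro h1
    have h2 : e.symm 0 = ⟨a, ha⟩ := by rw [← h1, e.symm_apply_apply]
    rw [h2]
  · intro h1
    have h2 : (⟨a, ha⟩ : Fin n) = e.symm 0 := Fin.ext h1
    rw [h2, e.apply_symm_apply]

theorem test_iff (hstep : S_step) (hword : S_word) (m : ℕ) (l : List ℕ) (hl : ∀ a ∈ l, a < n)
    (hlen : 1 ≤ l.length) :
    test (code e h) m l = true ↔ cfg e 0 l 0 ≠ 0 ∧ Cond h m (cfg e 0 l) := by
  obtain ⟨hz, hst⟩ := hstep A n e r h
  obtain ⟨-, -, hinj, hreps, hpad⟩ := hword A n e l.length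
  have ho : (e.symm 0 : ℕ) < n := (e.symm 0).2
  have hrep_lt : ∀ k, ∀ a ∈ reps k (e.symm 0 : ℕ), a < n := by
    intro k a ha
    simp only [reps, List.mem_map] at ha
    obtain ⟨_, _, rfl⟩ := ha
    exact ho
  have hrep_len : ∀ k, (reps k (e.symm 0 : ℕ)).length = k := by
    intro k
    simp [reps]
  have hr : (code e h).2.2.1 = r := rfl
  unfold test
  rw [Bool.and_eq_true, Bool.or_eq_true, decide_eq_true_iff, decide_eq_true_iff, hz, hr]
  have hA : l.getD 0 (e.symm 0 : ℕ) ≠ (e.symm 0 : ℕ) ↔ cfg e 0 l 0 ≠ 0 := by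
    cases l with
    | nil => simp at hlen
    | cons a l =>
      have ha : a < n := hl a (by simp)
      have h1 : cfg e 0 (a :: l) 0 = dc e a := by simp [cfg]
      rw [h1, List.getD_cons_zero, not_iff_not, dc_zero_iff e ha]
  have hB : stepL (code e h) l = reps (l.length + 2 * r) (e.symm 0 : ℕ) ↔
      ca h (cfg e 0 l) = 0 := by
    obtain ⟨h1, h2, h3⟩ := hst l hl
    have h4 := h3 0
    constructor
    · intro h5
      rw [← h4, h5, hreps]
    · intro h5
      apply hinj _ _ (0 + r) h1 (hrep_lt _) (by rw [h2, hrep_len])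
      rw [h4, h5, hreps]
  have hC : ((List.range (2 * (r * m) + 1)).any fun s =>
        decide ((stepL (code e h))^[m] l =
          reps s (e.symm 0 : ℕ) ++ (l ++ reps (2 * (r * m) - s) (e.symm 0 : ℕ)))) = true ↔
      ∃ s : ℤ, |s| ≤ (r * m : ℕ) ∧ (ca h)^[m] (cfg e 0 l) = sh s (cfg e 0 l) := by
    obtain ⟨h1, h2, h3⟩ := iter_step e h hstep m l hl 0
    have hD : ∀ s : ℕ, s ≤ 2 * (r * m) →
        ((stepL (code e h))^[m] l =
          reps s (e.symm 0 : ℕ) ++ (l ++ reps (2 * (r * m) - s) (e.symm 0 : ℕ)) ↔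
        (ca h)^[m] (cfg e 0 l) = sh ((s : ℤ) - (r * m : ℕ)) (cfg e 0 l)) := by
      intro s hs
      have h4 : cfg e (0 + (r * m : ℕ))
          (reps s (e.symm 0 : ℕ) ++ (l ++ reps (2 * (r * m) - s) (e.symm 0 : ℕ))) =
          sh ((s : ℤ) - (r * m : ℕ)) (cfg e 0 l) := by
        ext1 i
        rw [cfg_off e _ s, ← hpad]
        simp only [sh]
        congr 1
        ring
      constructor
      · intro h5
        rw [← h3, h5, h4]
      · intro h5
        apply hinj _ _ (0 + (r * m : ℕ)) h1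
        · intro a ha
          rw [List.mem_append, List.mem_append] at ha
          rcases ha with ha | ha | ha
          · exact hrep_lt _ a ha
          · exact hl a ha
          · exact hrep_lt _ a ha
        · rw [h2, List.length_append, List.length_append, hrep_len, hrep_len]
          omega
        · rw [h3, h4, h5]
    rw [List.any_eq_true]
    constructor
    · rintro ⟨s, hs, h5⟩
      rw [List.mem_range] at hs
      rw [decide_eq_true_iff] at h5
      refine ⟨(s : ℤ) - (r * m : ℕ), ?_, (hD s (by omega)).mp h5⟩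
      rw [abs_le]
      push_cast
      have : (s : ℤ) < 2 * (r * m) + 1 := by exact_mod_cast hs
      constructor <;> linarith
    · rintro ⟨s, hs, h5⟩
      rw [abs_le] at hs
      refine ⟨(s + (r * m : ℕ)).toNat, ?_, ?_⟩
      · rw [List.mem_range]
        omega
      · rw [decide_eq_true_iff, hD _ (by omega), h5]
        congr 1
        omega
  rw [hA, hB, hC]
  rfl

theorem dec_iff (hstep : S_step) (hword : S_word) :
    dec (code e h) = true ↔ ∃ z : ℤ → A, z 0 ≠ 0 ∧ (∀ i < 0, z i = 0) ∧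
      (∀ i : ℤ, ((n ^ (2 * (r * n.factorial)) : ℕ) : ℤ) < i → z i = 0) ∧
      Cond h n.factorial z := by
  obtain ⟨hw, hex, -, -, -⟩ := hword A n e (n ^ (2 * (r * n.factorial)) + 1)
  unfold dec
  have hn : (code e h).1 = n := rfl
  have hr : (code e h).2.2.1 = r := rfl
  rw [List.any_eq_true, hn, hr]
  constructor
  · rintro ⟨c, -, hc⟩
    obtain ⟨h1, h2⟩ := hw c
    rw [test_iff e h hstep hword _ _ h1 (by rw [h2]; omega)] at hc
    refine ⟨_, hc.1, ?_, ?_, hc.2⟩
    · intro i hi
      simp only [cfg, add_zero]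
      rw [if_neg]
      omega
    · intro i hi
      simp only [cfg, add_zero]
      rw [if_neg]
      rw [h2]
      omega
  · rintro ⟨z, hz, h0, h1, hs⟩
    obtain ⟨c, hc, hcz⟩ := hex z h0 (fun i hi => h1 i (by push_cast at hi ⊢; omega))
    refine ⟨c, List.mem_range.mpr hc, ?_⟩
    obtain ⟨h3, h4⟩ := hw c
    rw [test_iff e h hstep hword _ _ h3 (by rw [h4]; omega), hcz]
    exact ⟨hz, hs⟩

end Pool.Agent.Q206.SO
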