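import Mathlib

/-!
# Abelian cellular automata and solitons: definitions and the decision procedure

The cellular automaton with coefficients `h j`, its finite description, the notion of a soliton, and
a concrete decision procedure on lists of natural numbers.
-/

namespace Pool.Agent.Q206.SO

/-- The abelian cellular automaton with coefficients `h 0, …, h (2 * r)`:
`F(x) i = ∑ j, h j (x (i + j - r))`. -/
def ca {A : Type} [AddCommGroup A] {r : ℕ} (h : Fin (2 * r + 1) → (A →+ A)) (x : ℤ → A) : ℤ → A :=
  fun i => ∑ j, h j (x (i + (j : ℤ) - r))

/-- `F` has a soliton: two different configurations whose set of differences is finite, and such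
that the diameters of the sets of differences of all their iterates are at most one number `D`. -/
def HasSoliton {A : Type} (F : (ℤ → A) → (ℤ → A)) : Prop :=
  ∃ x y : ℤ → A, x ≠ y ∧ {i | x i ≠ y i}.Finite ∧
    ∃ D : ℕ, ∀ t : ℕ, ∀ i j : ℤ, F^[t] x i ≠ F^[t] y i → F^[t] x j ≠ F^[t] y j → |i - j| ≤ D

/-- The shift by `s` cells. -/
def sh {A : Type} (s : ℤ) (z : ℤ → A) : ℤ → A := fun i => z (i - s)

/-- Finite descriptions: number of elements of the group, group table, radius, and the tables of
the maps `h j`. -/
abbrev Input : Type := ℕ × List (List ℕ) × ℕ × List (List ℕ)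

/-- The finite description of the cellular automaton `ca h`, the elements of the group being
numbered by `e`. -/
def code {A : Type} [AddCommGroup A] {n : ℕ} (e : Fin n ≃ A) {r : ℕ}
    (h : Fin (2 * r + 1) → (A →+ A)) : Input :=
  (n, (List.finRange n).map (fun a => (List.finRange n).map fun b => (e.symm (e a + e b) : ℕ)), r,
    (List.finRange (2 * r + 1)).map fun j => (List.finRange n).map fun a => (e.symm (h j (e a)) : ℕ))

/-! ### The decision procedure -/

/-- Look up in the group table. -/
def tab2 (T : List (List ℕ)) (a b : ℕ) : ℕ := (T.getD a []).getD b 0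

/-- The number of the zero element. -/
def zeroOf (I : Input) : ℕ :=
  (List.range I.1).foldl (fun c a => if tab2 I.2.1 a a = a then a else c) 0

/-- The new content of the cell `i` (counted from the cell `-r`), when the word `l` is written in
the cells `0, 1, …` of an otherwise zero configuration. -/
def cell (I : Input) (l : List ℕ) (i : ℕ) : ℕ :=
  (List.range (2 * I.2.2.1 + 1)).foldl
    (fun c j => tab2 I.2.1 c ((I.2.2.2.getD j []).getD
      (if 2 * I.2.2.1 ≤ i + j then l.getD (i + j - 2 * I.2.2.1) (zeroOf I) else zeroOf I) 0))
    (zeroOf I)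

/-- One step of the cellular automaton on words: the new word starts `r` cells further left. -/
def stepL (I : Input) (l : List ℕ) : List ℕ :=
  (List.range (l.length + 2 * I.2.2.1)).map (cell I l)

/-- The word with number `c` among the words of length `L` over `0, …, n - 1`. -/
def word (n L c : ℕ) : List ℕ := (List.range L).map fun i => c / n ^ i % n

/-- `k` copies of `o`. -/
def reps (k o : ℕ) : List ℕ := (List.range k).map fun _ => o

/-- The test for one word. -/
def test (I : Input) (m : ℕ) (l : List ℕ) : Bool :=
  decide (l.getD 0 (zeroOf I) ≠ zeroOf I) &&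
    (decide (stepL I l = reps (l.length + 2 * I.2.2.1) (zeroOf I)) ||
      (List.range (2 * (I.2.2.1 * m) + 1)).any fun s =>
        decide ((stepL I)^[m] l =
          reps s (zeroOf I) ++ (l ++ reps (2 * (I.2.2.1 * m) - s) (zeroOf I))))

/-- The decision procedure. -/
def dec (I : Input) : Bool :=
  (List.range (I.1 ^ (I.1 ^ (2 * (I.2.2.1 * I.1.factorial)) + 1))).any fun c =>
    test I I.1.factorial (word I.1 (I.1 ^ (2 * (I.2.2.1 * I.1.factorial)) + 1) c)

/-- The element with number `a`. -/
def dc {A : Type} [AddCommGroup A] {n : ℕ} (e : Fin n ≃ A) (a : ℕ) : A :=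
  if h : a < n then e ⟨a, h⟩ else 0

/-- The configuration which has the word `l` in the cells `-off, -off + 1, …` and is zero
elsewhere. -/
def cfg {A : Type} [AddCommGroup A] {n : ℕ} (e : Fin n ≃ A) (off : ℤ) (l : List ℕ) : ℤ → A :=
  fun i => if 0 ≤ i + off ∧ (i + off).toNat < l.length then dc e (l.getD (i + off).toNat 0) else 0

end Pool.Agent.Q206.SO
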