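import Pool.Agent.Q206.SO.Stm

/-!
# Abelian cellular automata and solitons: JOB coef
-/

open LaurentPolynomial

namespace Pool.Agent.Q206.SO

theorem coef_mul_aux {p : ℕ} [Fact p.Prime] (f : Rb p) (ρ : Kb p) (s e : ℤ) (i : ℕ) :
    (f * (C ρ * T s : Rb p) ^ i).coeff e = f.coeff (e - i * s) * ρ ^ i := by
  rw [mul_pow, T_pow, ← map_pow, ← single_eq_C_mul_T]
  rw [AddMonoidAlgebra.coeff_mul_single_eq_coeff_mul (e - i * s)]
  intro a _
  constructor
  · intro h
    rw [← h]
    ring
  · intro h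
    rw [h]
    ring

/-- JOB coef. -/
theorem job_coef : S_coef := by
  intro p _ k t s φ M ρ v ht hφ hv hM
  obtain ⟨-, -, h1, h2⟩ := hφ
  have hdet : (Matrix.scalar (Fin k) (C ρ * T s : Rb p) - M.map φ).det = 0 := by
    refine Matrix.exists_mulVec_eq_zero_iff.1 ⟨v, hv, ?_⟩
    rw [Matrix.sub_mulVec, hM]
    have : (Matrix.scalar (Fin k) (C ρ * T s : Rb p)).mulVec v = (C ρ * T s : Rb p) • v := by
      ext1 i
      rw [Matrix.scalar_apply, Matrix.mulVec_diagonal, Pi.smul_apply, smul_eq_mul]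
    rw [this, sub_self]
  rw [← Matrix.eval_charpoly, Matrix.charpoly_map] at hdet
  have hnd : (M.charpoly.map φ).natDegree < k + 1 := by
    have h3 : (M.charpoly.map φ).natDegree ≤ M.charpoly.natDegree := Polynomial.natDegree_map_le
    have h4 : M.charpoly.natDegree = Fintype.card (Fin k) := Matrix.charpoly_natDegree_eq_dim M
    rw [Fintype.card_fin] at h4
    omega
  rw [Polynomial.eval_eq_sum_range' hnd] at hdet
  refine ⟨fun i => if (t : ℤ) ∣ s * ((k : ℤ) - i) then
    (M.charpoly.coeff i).coeff (s * ((k : ℤ) - i) / t) else 0, ?_, ?_, ?_⟩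
  · have h5 : M.charpoly.coeff k = 1 := by
      have h4 : M.charpoly.natDegree = Fintype.card (Fin k) := Matrix.charpoly_natDegree_eq_dim M
      rw [Fintype.card_fin] at h4
      have := (Matrix.charpoly_monic M).coeff_natDegree
      rwa [h4] at this
    simp only [sub_self, mul_zero, dvd_zero, if_true, Int.zero_ediv, h5]
    rw [← T_zero, T_apply, if_pos rfl]
  · have hco' : ∑ i ∈ Finset.range (k + 1),
        ((M.charpoly.map φ).coeff i * (C ρ * T s : Rb p) ^ i).coeff (s * k) = 0 := by
      have h6 : (∑ i ∈ Finset.range (k + 1),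
          (M.charpoly.map φ).coeff i * (C ρ * T s : Rb p) ^ i).coeff (s * k) = 0 := by
        rw [hdet]
        rfl
      rwa [AddMonoidAlgebra.coeff_sum, Finsupp.finsetSum_apply] at h6
    rw [← hco']
    refine Finset.sum_congr rfl fun i _ => ?_
    beta_reduce
    rw [coef_mul_aux, Polynomial.coeff_map,
      show s * (k : ℤ) - i * s = s * ((k : ℤ) - i) by ring]
    by_cases hd : (t : ℤ) ∣ s * ((k : ℤ) - i)
    · rw [if_pos hd]
      have := h1 (M.charpoly.coeff i) (s * ((k : ℤ) - i) / t)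
      rw [Int.mul_ediv_cancel' hd] at this
      rw [this]
    · rw [if_neg hd, h2 _ _ hd, map_zero]
  · intro i _ hi
    by_contra hd
    exact hi (if_neg hd)

end Pool.Agent.Q206.SO
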