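import Pool.Agent.Q206.SO.Stm

set_option autoImplicit false

/-!
# JOB comp: the decision procedure is computable
-/

namespace Pool.Agent.Q206.SO

section gen

variable {α β : Type} [Primcodable α] [Primcodable β]

theorem pr_getD {f : α → List β} {g : α → ℕ} {h : α → β} (hf : Primrec f) (hg : Primrec g)
    (hh : Primrec h) : Primrec fun a => (f a).getD (g a) (h a) := by
  have h1 : Primrec fun a => (f a)[g a]? := Primrec.list_getElem?.comp hf hg
  exact (Primrec.option_getD.comp h1 hh).of_eq fun a => by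
    rw [List.getD_eq_getElem?_getD]

theorem pr_pow {f g : α → ℕ} (hf : Primrec f) (hg : Primrec g) : Primrec fun a => f a ^ g a := by
  have h1 : Primrec fun a => Nat.rec (motive := fun _ => ℕ) 1 (fun _ r => r * f a) (g a) :=
    Primrec.nat_rec' hg (Primrec.const 1)
      (Primrec.nat_mul.comp (Primrec.snd.comp Primrec.snd) (hf.comp Primrec.fst)).to₂
  exact h1.of_eq fun a => by
    induction g a with
    | zero => rfl
    | succ n ih => rw [pow_succ]; exact congrArg (· * f a) ih

theorem pr_fact {f : α → ℕ} (hf : Primrec f) : Primrec fun a => (f a).factorial := by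
  have h1 : Primrec fun a => Nat.rec (motive := fun _ => ℕ) 1 (fun k r => (k + 1) * r) (f a) :=
    Primrec.nat_rec' hf (Primrec.const 1)
      (Primrec.nat_mul.comp (Primrec.succ.comp (Primrec.fst.comp Primrec.snd))
        (Primrec.snd.comp Primrec.snd)).to₂
  exact h1.of_eq fun a => by
    induction f a with
    | zero => rfl
    | succ n ih => rw [Nat.factorial_succ]; exact congrArg ((n + 1) * ·) ih

theorem any_foldr (l : List β) (p : β → Bool) : l.any p = l.foldr (fun x b => p x || b) false := by
  induction l with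
  | nil => rfl
  | cons a l ih => simp only [List.any_cons, List.foldr_cons, ih]

theorem pr_any {f : α → List β} {p : α → β → Bool} (hf : Primrec f) (hp : Primrec₂ p) :
    Primrec fun a => (f a).any (p a) := by
  have h1 : Primrec fun a => (f a).foldr (fun x b => p a x || b) false :=
    Primrec.list_foldr (h := fun a (q : β × Bool) => p a q.1 || q.2) hf (Primrec.const false)
      (Primrec.or.comp (hp.comp Primrec.fst (Primrec.fst.comp Primrec.snd))
        (Primrec.snd.comp Primrec.snd)).to₂
  exact h1.of_eq fun a => (any_foldr _ _).symm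

theorem pr_add {f g : α → ℕ} (hf : Primrec f) (hg : Primrec g) : Primrec fun a => f a + g a :=
  Primrec.nat_add.comp hf hg

theorem pr_mul {f g : α → ℕ} (hf : Primrec f) (hg : Primrec g) : Primrec fun a => f a * g a :=
  Primrec.nat_mul.comp hf hg

theorem pr_sub {f g : α → ℕ} (hf : Primrec f) (hg : Primrec g) : Primrec fun a => f a - g a :=
  Primrec.nat_sub.comp hf hg

theorem pr_tab2 {T : α → List (List ℕ)} {f g : α → ℕ} (hT : Primrec T) (hf : Primrec f)
    (hg : Primrec g) : Primrec fun a => tab2 (T a) (f a) (g a) :=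
  pr_getD (pr_getD hT hf (Primrec.const [])) hg (Primrec.const 0)

/-- the parts of the input -/
theorem pr_n {I : α → Input} (hI : Primrec I) : Primrec fun a => (I a).1 := Primrec.fst.comp hI

theorem pr_T {I : α → Input} (hI : Primrec I) : Primrec fun a => (I a).2.1 :=
  Primrec.fst.comp (Primrec.snd.comp hI)

theorem pr_r {I : α → Input} (hI : Primrec I) : Primrec fun a => (I a).2.2.1 :=
  Primrec.fst.comp (Primrec.snd.comp (Primrec.snd.comp hI))

theorem pr_H {I : α → Input} (hI : Primrec I) : Primrec fun a => (I a).2.2.2 :=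
  Primrec.snd.comp (Primrec.snd.comp (Primrec.snd.comp hI))

theorem pr_zeroOf {I : α → Input} (hI : Primrec I) : Primrec fun a => zeroOf (I a) := by
  have h1 : Primrec fun I : Input => zeroOf I := by
    refine Primrec.list_foldl
      (h := fun (I : Input) (q : ℕ × ℕ) => if tab2 I.2.1 q.2 q.2 = q.2 then q.2 else q.1)
      (Primrec.list_range.comp Primrec.fst) (Primrec.const 0) ?_
    refine Primrec.ite ?_ (Primrec.snd.comp Primrec.snd) (Primrec.fst.comp Primrec.snd)
    exact Primrec.eq.comp (pr_tab2 (pr_T Primrec.fst) (Primrec.snd.comp Primrec.snd)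
      (Primrec.snd.comp Primrec.snd)) (Primrec.snd.comp Primrec.snd)
  exact h1.comp hI

theorem pr_cell : Primrec fun p : (Input × List ℕ) × ℕ => cell p.1.1 p.1.2 p.2 := by
  refine Primrec.list_foldl
    (h := fun (p : (Input × List ℕ) × ℕ) (q : ℕ × ℕ) =>
      tab2 p.1.1.2.1 q.1 ((p.1.1.2.2.2.getD q.2 []).getD
        (if 2 * p.1.1.2.2.1 ≤ p.2 + q.2 then
          p.1.2.getD (p.2 + q.2 - 2 * p.1.1.2.2.1) (zeroOf p.1.1) else zeroOf p.1.1) 0))
    ?_ (pr_zeroOf (Primrec.fst.comp Primrec.fst)) ?_
  · exact Primrec.list_range.comp (Primrec.succ.comp (pr_mul (Primrec.const 2)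
      (pr_r (Primrec.fst.comp Primrec.fst))))
  · have hI : Primrec fun x : ((Input × List ℕ) × ℕ) × (ℕ × ℕ) => x.1.1.1 :=
      Primrec.fst.comp (Primrec.fst.comp Primrec.fst)
    have hl : Primrec fun x : ((Input × List ℕ) × ℕ) × (ℕ × ℕ) => x.1.1.2 :=
      Primrec.snd.comp (Primrec.fst.comp Primrec.fst)
    have hi : Primrec fun x : ((Input × List ℕ) × ℕ) × (ℕ × ℕ) => x.1.2 :=
      Primrec.snd.comp Primrec.fst
    have hc : Primrec fun x : ((Input × List ℕ) × ℕ) × (ℕ × ℕ) => x.2.1 :=
      Primrec.fst.comp Primrec.snd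
    have hj : Primrec fun x : ((Input × List ℕ) × ℕ) × (ℕ × ℕ) => x.2.2 :=
      Primrec.snd.comp Primrec.snd
    refine pr_tab2 (pr_T hI) hc (pr_getD (pr_getD (pr_H hI) hj (Primrec.const [])) ?_
      (Primrec.const 0))
    refine Primrec.ite ?_ ?_ (pr_zeroOf hI)
    · exact Primrec.nat_le.comp (pr_mul (Primrec.const 2) (pr_r hI)) (pr_add hi hj)
    · exact pr_getD hl (pr_sub (pr_add hi hj) (pr_mul (Primrec.const 2) (pr_r hI)))
        (pr_zeroOf hI)

theorem pr_stepL {I : α → Input} {l : α → List ℕ} (hI : Primrec I) (hl : Primrec l) :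
    Primrec fun a => stepL (I a) (l a) := by
  refine Primrec.list_map (Primrec.list_range.comp (pr_add (Primrec.list_length.comp hl)
    (pr_mul (Primrec.const 2) (pr_r hI)))) ?_
  exact pr_cell.comp (Primrec.pair (Primrec.pair (hI.comp Primrec.fst) (hl.comp Primrec.fst))
    Primrec.snd)

theorem pr_word {n L c : α → ℕ} (hn : Primrec n) (hL : Primrec L) (hc : Primrec c) :
    Primrec fun a => word (n a) (L a) (c a) := by
  refine Primrec.list_map (Primrec.list_range.comp hL) ?_
  exact Primrec.nat_mod.comp (Primrec.nat_div.comp (hc.comp Primrec.fst)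
    (pr_pow (hn.comp Primrec.fst) Primrec.snd)) (hn.comp Primrec.fst)

theorem pr_reps {k o : α → ℕ} (hk : Primrec k) (ho : Primrec o) :
    Primrec fun a => reps (k a) (o a) :=
  Primrec.list_map (Primrec.list_range.comp hk) (ho.comp Primrec.fst).to₂

theorem pr_test {I : α → Input} {m : α → ℕ} {l : α → List ℕ} (hI : Primrec I) (hm : Primrec m)
    (hl : Primrec l) : Primrec fun a => test (I a) (m a) (l a) := by
  have hz : Primrec fun a => zeroOf (I a) := pr_zeroOf hI
  refine Primrec.and.comp ?_ (Primrec.or.comp ?_ (pr_any ?_ ?_))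
  · exact (PrimrecPred.not (Primrec.eq.comp (pr_getD hl (Primrec.const 0) hz) hz)).decide
  · exact (Primrec.eq.comp (pr_stepL hI hl) (pr_reps (pr_add (Primrec.list_length.comp hl)
      (pr_mul (Primrec.const 2) (pr_r hI))) hz)).decide
  · exact Primrec.list_range.comp (Primrec.succ.comp (pr_mul (Primrec.const 2)
      (pr_mul (pr_r hI) hm)))
  · have h1 : Primrec fun x : α × ℕ => (stepL (I x.1))^[m x.1] (l x.1) :=
      Primrec.nat_iterate (hm.comp Primrec.fst) (hl.comp Primrec.fst)
        (pr_stepL ((hI.comp Primrec.fst).comp Primrec.fst) Primrec.snd)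
    have h2 : Primrec fun x : α × ℕ => reps x.2 (zeroOf (I x.1)) ++
        (l x.1 ++ reps (2 * ((I x.1).2.2.1 * m x.1) - x.2) (zeroOf (I x.1))) :=
      Primrec.list_append.comp (pr_reps Primrec.snd (hz.comp Primrec.fst))
        (Primrec.list_append.comp (hl.comp Primrec.fst) (pr_reps (pr_sub (pr_mul (Primrec.const 2)
          (pr_mul (pr_r (hI.comp Primrec.fst)) (hm.comp Primrec.fst))) Primrec.snd)
          (hz.comp Primrec.fst)))
    exact (Primrec.eq.comp h1 h2).decide

end gen

theorem pr_dec : Primrec dec := by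
  have hn : Primrec fun I : Input => I.1 := Primrec.fst
  have hr : Primrec fun I : Input => I.2.2.1 := Primrec.fst.comp (Primrec.snd.comp Primrec.snd)
  have hf : Primrec fun I : Input => I.1.factorial := pr_fact hn
  have hL : Primrec fun I : Input => I.1 ^ (2 * (I.2.2.1 * I.1.factorial)) + 1 :=
    Primrec.succ.comp (pr_pow hn (pr_mul (Primrec.const 2) (pr_mul hr hf)))
  refine pr_any (Primrec.list_range.comp (pr_pow hn hL)) ?_
  exact pr_test Primrec.fst (hf.comp Primrec.fst)
    (pr_word (hn.comp Primrec.fst) (hL.comp Primrec.fst) Primrec.snd)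

/-- JOB comp. -/
theorem job_comp : S_comp := pr_dec.to_comp

end Pool.Agent.Q206.SO
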