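import Pool.Agent.Q206.SO.Stm

/-!
# The cellular automaton on the `p`-torsion is a matrix of Laurent polynomials
-/

set_option autoImplicit false

open LaurentPolynomial

namespace Pool.Agent.Q206.SO

lemma jm_coeff {p : ℕ} (n : ℤ) (a : ZMod p) (f : R p) (i : ℤ) :
    (AddMonoidAlgebra.single n a * f : R p).coeff i = a * f.coeff (i - n) := by
  have := AddMonoidAlgebra.coeff_single_mul_apply f a n i
  rw [this]
  congr 2
  ring

lemma jm_basis (p : ℕ) [Fact p.Prime] (V : Type) [AddCommGroup V] [Module (ZMod p) V] [Finite V] :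
    ∃ k : ℕ, Nonempty (Module.Basis (Fin k) (ZMod p) V) ∧ Nat.card V = p ^ k := by
  have hF : Module.Finite (ZMod p) V := Module.Finite.of_finite
  refine ⟨Module.finrank (ZMod p) V, ⟨Module.finBasis (ZMod p) V⟩, ?_⟩
  have h1 : Nat.card V = Nat.card (ZMod p) ^ (Module.finrank (ZMod p) V) :=
    Module.natCard_eq_pow_finrank
  rwa [Nat.card_zmod] at h1

lemma jm_main (A : Type) [AddCommGroup A] [Finite A] (p : ℕ) [Fact p.Prime] (r : ℕ)
    (h : Fin (2 * r + 1) → (A →+ A)) (V : Type) [AddCommGroup V] [Module (ZMod p) V] [Finite V]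
    (ι : V →+ A) (hι : Function.Injective ι) (hr : ∀ a : A, p • a = 0 → ∃ x, ι x = a)
    (g : Fin (2 * r + 1) → (V →+ V)) (hg : ∀ j x, ι (g j x) = h j (ι x)) :
    ∃ k : ℕ, p ^ k ≤ Nat.card A ∧ ∃ (M : Matrix (Fin k) (Fin k) (R p))
      (φ : (Fin k → R p) → (ℤ → A)), Function.Injective φ ∧ φ 0 = 0 ∧
      (∀ v, φ (M.mulVec v) = ca h (φ v)) ∧ (∀ (v : Fin k → R p) (s : ℤ),
        φ ((T s : R p) • v) = sh s (φ v)) ∧
      (∀ v, {i | φ v i ≠ 0}.Finite) ∧
      ∀ z : ℤ → A, {i | z i ≠ 0}.Finite → (∀ i, p • z i = 0) → ∃ v, φ v = z := by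
  obtain ⟨k, ⟨b⟩, hcard⟩ := jm_basis p V
  let B : V ≃ₗ[ZMod p] (Fin k → ZMod p) := b.equivFun
  let L : Fin (2 * r + 1) → (V →ₗ[ZMod p] V) := fun j => AddMonoidHom.toZModLinearMap p (g j)
  let H : Fin (2 * r + 1) → Matrix (Fin k) (Fin k) (ZMod p) :=
    fun j => LinearMap.toMatrix b b (L j)
  have hH : ∀ (j : Fin (2 * r + 1)) (w : Fin k → ZMod p),
      B.symm ((H j).mulVec w) = L j (B.symm w) := by
    intro j w
    rw [LinearEquiv.symm_apply_eq]
    have h1 := LinearMap.toMatrix_mulVec_repr b b (L j) (B.symm w)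
    have h2 : (⇑(b.repr (B.symm w)) : Fin k → ZMod p) = w := by
      have : B (B.symm w) = w := B.apply_symm_apply w
      exact this
    rw [h2] at h1
    exact h1
  have hL : ∀ (j : Fin (2 * r + 1)) (x : V), ι (L j x) = h j (ι x) := fun j x => hg j x
  let M : Matrix (Fin k) (Fin k) (R p) :=
    fun c d => ∑ j : Fin (2 * r + 1), AddMonoidAlgebra.single ((r : ℤ) - (j : ℤ)) (H j c d)
  let φ : (Fin k → R p) → (ℤ → A) := fun v i => ι (B.symm (fun c => (v c).coeff i))
  refine ⟨k, ?_, M, φ, ?_, ?_, ?_, ?_, ?_, ?_⟩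
  · rw [← hcard]
    exact Nat.card_le_card_of_injective ι hι
  · intro v w hvw
    funext c
    apply LaurentPolynomial.ext
    intro i
    have h1 := congrFun hvw i
    simp only [φ] at h1
    have h2 := B.symm.injective (hι h1)
    exact congrFun h2 c
  · funext i
    simp only [φ, Pi.zero_apply, AddMonoidAlgebra.coeff_zero, Finsupp.coe_zero]
    have : (fun _ : Fin k => (0 : ZMod p)) = 0 := rfl
    rw [this, map_zero, map_zero]
  · intro v
    funext i
    have h1 : (fun c => ((M.mulVec v) c).coeff i) =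
        ∑ j : Fin (2 * r + 1), (H j).mulVec (fun d => (v d).coeff (i + (j : ℤ) - r)) := by
      funext c
      simp only [Matrix.mulVec, dotProduct, M, Finset.sum_mul, AddMonoidAlgebra.coeff_sum,
        Finsupp.coe_finsetSum, Finset.sum_apply, jm_coeff]
      rw [Finset.sum_comm]
      refine Finset.sum_congr rfl fun j _ => Finset.sum_congr rfl fun d _ => ?_
      congr 2
      ring
    simp only [φ, ca]
    rw [h1, map_sum, map_sum]
    refine Finset.sum_congr rfl fun j _ => ?_
    rw [hH, hL]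
  · intro v s
    funext i
    simp only [φ, sh]
    congr 2
    funext c
    have : ((T s : R p) • v) c = AddMonoidAlgebra.single s 1 * v c := rfl
    rw [this, jm_coeff, one_mul]
  · intro v
    refine Set.Finite.subset
      (Set.finite_iUnion (fun c : Fin k => ((v c).coeff.support).finite_toSet)) ?_
    intro i hi
    by_contra hc
    apply hi
    simp only [Set.mem_iUnion, Finset.mem_coe, Finsupp.mem_support_iff, not_exists, not_not] at hc
    simp only [φ, hc]
    have : (fun _ : Fin k => (0 : ZMod p)) = 0 := rfl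
    rw [this, map_zero, map_zero]
  · intro z hz hpz
    choose y hy using fun i => hr (z i) (hpz i)
    have hfin : ∀ c : Fin k, (Function.support (fun i : ℤ => B (y i) c)).Finite := by
      intro c
      refine hz.subset ?_
      intro i hi hzi
      apply hi
      have h0 : y i = 0 := hι (by rw [hy, hzi, map_zero])
      simp only [h0, map_zero, Pi.zero_apply]
    refine ⟨fun c => AddMonoidAlgebra.ofCoeff (Finsupp.ofSupportFinite _ (hfin c)), ?_⟩
    funext i
    simp only [φ]
    have h1 : (fun c => (AddMonoidAlgebra.ofCoeff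
        (Finsupp.ofSupportFinite _ (hfin c)) : R p).coeff i) = B (y i) := by
      funext c
      rfl
    rw [h1, LinearEquiv.symm_apply_apply, hy]

/-- the `p`-torsion -/
def jmV (A : Type) [AddCommGroup A] (p : ℕ) : AddSubgroup A := (nsmulAddMonoidHom p : A →+ A).ker

lemma jm_mem {A : Type} [AddCommGroup A] {p : ℕ} {a : A} : a ∈ jmV A p ↔ p • a = 0 := by
  unfold jmV
  rw [AddMonoidHom.mem_ker]
  rfl

/-- restriction of an additive map to the `p`-torsion -/
def jmRes {A : Type} [AddCommGroup A] (p : ℕ) (f : A →+ A) : jmV A p →+ jmV A p where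
  toFun x := ⟨f x, by
    rw [jm_mem, ← map_nsmul, jm_mem.mp x.2, map_zero]⟩
  map_zero' := by ext; simp
  map_add' x y := by ext; simp

theorem mat : S_mat := by
  intro A _ _ p _ r h
  let inst : Module (ZMod p) (jmV A p) :=
    AddCommGroup.zmodModule (n := p) (fun x => by
      ext
      exact jm_mem.mp x.2)
  exact jm_main A p r h (jmV A p) (jmV A p).subtype Subtype.val_injective
    (fun a ha => ⟨⟨a, jm_mem.mpr ha⟩, rfl⟩) (fun j => jmRes p (h j)) (fun j x => rfl)

end Pool.Agent.Q206.SO
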