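import Pool.Agent.Q206.SO.Stm

/-!
# Abelian cellular automata and solitons: JOB ord
-/

open LaurentPolynomial

namespace Pool.Agent.Q206.SO

/-- JOB ord. -/
theorem job_ord : S_ord := by
  intro p _ k ρ g hρ hk h0
  have hint : IsIntegral (ZMod p) ρ := Algebra.IsIntegral.isIntegral ρ
  obtain ⟨q, hq⟩ : ∃ q : Polynomial (ZMod p),
      q = ∑ i ∈ Finset.range (k + 1), Polynomial.C (g i) * Polynomial.X ^ i := ⟨_, rfl⟩
  have hqk : q.coeff k = 1 := by
    rw [hq, Polynomial.finsetSum_coeff]
    simp only [Polynomial.coeff_C_mul, Polynomial.coeff_X_pow]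
    rw [Finset.sum_eq_single k]
    · simp [hk]
    · intro b _ hb
      rw [if_neg (Ne.symm hb), mul_zero]
    · intro h
      exact absurd (Finset.self_mem_range_succ k) h
  have hq0 : q ≠ 0 := by
    rintro rfl
    simp at hqk
  have hdeg : q.natDegree ≤ k := by
    rw [hq]
    refine Polynomial.natDegree_sum_le_of_forall_le _ _ fun i hi => ?_
    refine (Polynomial.natDegree_C_mul_X_pow_le _ _).trans ?_
    exact Nat.lt_succ_iff.1 (Finset.mem_range.1 hi)
  have hev : Polynomial.aeval ρ q = 0 := by
    rw [hq, map_sum, ← h0]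
    refine Finset.sum_congr rfl fun i _ => ?_
    rw [map_mul, map_pow, Polynomial.aeval_C, Polynomial.aeval_X]
  have hle : (minpoly (ZMod p) ρ).natDegree ≤ k :=
    (Polynomial.natDegree_le_of_dvd (minpoly.dvd (ZMod p) ρ hev) hq0).trans hdeg
  have hpos : 0 < (minpoly (ZMod p) ρ).natDegree := minpoly.natDegree_pos hint
  have hfd : FiniteDimensional (ZMod p) (IntermediateField.adjoin (ZMod p) {ρ}) :=
    IntermediateField.adjoin.finiteDimensional hint
  have hfin : Finite (IntermediateField.adjoin (ZMod p) {ρ}) := Module.finite_of_finite (ZMod p)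
  have := Fintype.ofFinite (IntermediateField.adjoin (ZMod p) {ρ})
  have hcard : Fintype.card (IntermediateField.adjoin (ZMod p) {ρ}) =
      p ^ (minpoly (ZMod p) ρ).natDegree := by
    rw [Module.card_eq_pow_finrank (K := ZMod p), ZMod.card,
      IntermediateField.adjoin.finrank hint]
  have hp : 1 < p := (Fact.out : p.Prime).one_lt
  have h2 : 2 ≤ Fintype.card (IntermediateField.adjoin (ZMod p) {ρ}) := Fintype.one_lt_card
  refine ⟨Fintype.card (IntermediateField.adjoin (ZMod p) {ρ}) - 1, by omega, ?_, ?_⟩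
  · refine (Nat.sub_le _ _).trans ?_
    rw [hcard]
    exact Nat.pow_le_pow_right hp.le hle
  · have hne : (IntermediateField.AdjoinSimple.gen (ZMod p) ρ) ≠ 0 := by
      intro h
      apply hρ
      have := congrArg (algebraMap (IntermediateField.adjoin (ZMod p) {ρ}) (Kb p)) h
      rwa [IntermediateField.AdjoinSimple.algebraMap_gen, map_zero] at this
    have := FiniteField.pow_card_sub_one_eq_one _ hne
    have h3 := congrArg (algebraMap (IntermediateField.adjoin (ZMod p) {ρ}) (Kb p)) this
    rwa [map_pow, IntermediateField.AdjoinSimple.algebraMap_gen, map_one] at h3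

end Pool.Agent.Q206.SO
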