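import Pool.Agent.Q206.SO.Stm

/-!
# Abelian cellular automata and solitons: JOB pig
-/

open LaurentPolynomial

namespace Pool.Agent.Q206.SO

/-- A nonzero configuration whose support has diameter at most `D` has a first cell. -/
theorem pig_first {A : Type} [AddCommGroup A] (x : ℤ → A) (D : ℕ) (h0 : x ≠ 0)
    (h : ∀ i j : ℤ, x i ≠ 0 → x j ≠ 0 → |i - j| ≤ D) : ∃ a : ℤ, x a ≠ 0 ∧
      (∀ i < a, x i = 0) ∧ ∀ i : ℤ, a + D < i → x i = 0 := by
  obtain ⟨i₀, hi₀⟩ : ∃ i, x i ≠ 0 := by
    by_contra hc
    push Not at hc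
    exact h0 (funext hc)
  obtain ⟨a, ha, hmin⟩ := Int.exists_least_of_bdd (P := fun i => x i ≠ 0)
    ⟨i₀ - D, fun j hj => by
      have := h i₀ j hi₀ hj
      have := (abs_le.1 this).2
      linarith⟩ ⟨i₀, hi₀⟩
  refine ⟨a, ha, fun i hi => ?_, fun i hi => ?_⟩
  · by_contra hc
    have := hmin i hc
    linarith
  · by_contra hc
    have := h i a hc ha
    have := (abs_le.1 this).2
    linarith

/-- JOB pig. -/
theorem job_pig : S_pig := by
  intro A _ _ F z D hF hz hD
  by_cases h : ∃ t, F^[t] z = 0
  · classical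
    have h1 : Nat.find h ≠ 0 := by
      intro hc
      have := Nat.find_spec h
      rw [hc] at this
      exact hz this
    have h2 : Nat.find h - 1 < Nat.find h := Nat.sub_lt (Nat.pos_of_ne_zero h1) one_pos
    refine ⟨Nat.find h - 1, Nat.find_min h h2, Or.inl ?_⟩
    rw [← Function.iterate_succ_apply' F, Nat.succ_eq_add_one,
      Nat.sub_add_cancel (Nat.pos_of_ne_zero h1)]
    exact Nat.find_spec h
  · push Not at h
    choose a ha hlo hhi using fun t => pig_first (F^[t] z) D (h t) (hD t)
    obtain ⟨t, u, htu, hw⟩ := Finite.exists_ne_map_eq_of_infinite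
      (fun t : ℕ => fun i : Fin (D + 1) => F^[t] z (a t + (i : ℕ)))
    have key : ∀ t u : ℕ, t < u →
        (fun i : Fin (D + 1) => F^[t] z (a t + (i : ℕ))) =
          (fun i : Fin (D + 1) => F^[u] z (a u + (i : ℕ))) →
        ∃ t : ℕ, F^[t] z ≠ 0 ∧
          (F (F^[t] z) = 0 ∨ ∃ u : ℕ, 1 ≤ u ∧ ∃ s : ℤ, F^[u] (F^[t] z) = sh s (F^[t] z)) := by
      intro t u htu hw
      refine ⟨t, h t, Or.inr ⟨u - t, by omega, a u - a t, ?_⟩⟩
      rw [← Function.iterate_add_apply, Nat.sub_add_cancel htu.le]
      funext i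
      rw [sh]
      by_cases h1 : i < a u
      · rw [hlo u i h1, hlo t _ (by linarith)]
      · by_cases h2 : a u + D < i
        · rw [hhi u i h2, hhi t _ (by linarith)]
        · push Not at h1 h2
          obtain ⟨m, hm⟩ := Int.eq_ofNat_of_zero_le (sub_nonneg.2 h1)
          have hmD : m < D + 1 := by
            have : (m : ℤ) ≤ D := by
              have h3 : i - a u ≤ D := by linarith
              rw [hm] at h3
              exact_mod_cast h3
            omega
          have h4 := congrFun hw ⟨m, hmD⟩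
          simp only at h4
          have e1 : i = a u + (m : ℕ) := by
            have : i - a u = (m : ℤ) := hm
            linarith
          have e2 : i - (a u - a t) = a t + (m : ℕ) := by
            rw [e1]
            ring
          rw [e2, h4, ← e1]
    rcases lt_or_gt_of_ne htu with h1 | h1
    · exact key t u h1 hw
    · exact key u t h1 hw.symm

end Pool.Agent.Q206.SO
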