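import Pool.Agent.Q206.SO.Stm

/-!
# Abelian cellular automata and solitons: JOB pump
-/

open LaurentPolynomial

namespace Pool.Agent.Q206.SO

/-- JOB pump. -/
theorem job_pump : S_pump := by
  intro A _ _ R S hS ⟨z₀, hz₀, hfin, hSz₀⟩
  classical
  -- existence of some right end
  have hex : ∃ b : ℕ, ∃ z : ℤ → A, z 0 ≠ 0 ∧ (∀ i < 0, z i = 0) ∧
      (∀ i : ℤ, (b : ℤ) < i → z i = 0) ∧ S z := by
    obtain ⟨i₀, hi₀⟩ : ∃ i, z₀ i ≠ 0 := by
      by_contra hc
      push Not at hc
      exact hz₀ (funext hc)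
    obtain ⟨lo, hlo⟩ := hfin.bddBelow
    obtain ⟨hi, hhi⟩ := hfin.bddAbove
    obtain ⟨a, ha, hmin⟩ := Int.exists_least_of_bdd (P := fun i => z₀ i ≠ 0)
      ⟨lo, fun j hj => hlo hj⟩ ⟨i₀, hi₀⟩
    refine ⟨(hi - a).toNat, fun i => z₀ (i + a), ?_, ?_, ?_, ?_⟩
    · simpa using ha
    · intro i hi'
      by_contra hc
      have := hmin _ hc
      linarith
    · intro i hi'
      by_contra hc
      have h1 : i + a ≤ hi := hhi hc
      have h2 : hi - a ≤ ((hi - a).toNat : ℤ) := Int.self_le_toNat _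
      linarith
    · refine hS z₀ _ hSz₀ fun i => ⟨i + a, fun k _ => ?_⟩
      rw [show i + k + a = i + a + k by ring]
  obtain ⟨z, hz0, hneg, hpos, hSz⟩ := Nat.find_spec hex
  by_cases hb : Nat.find hex ≤ Nat.card A ^ (2 * R)
  · refine ⟨z, hz0, hneg, fun i hi => hpos i ?_, hSz⟩
    have : ((Nat.find hex : ℕ) : ℤ) ≤ ((Nat.card A ^ (2 * R) : ℕ) : ℤ) := by exact_mod_cast hb
    linarith
  · exfalso
    push Not at hb
    -- two equal windows
    obtain ⟨p, q, hpq, hq, hw⟩ : ∃ p q : ℕ, p < q ∧ q ≤ Nat.card A ^ (2 * R) ∧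
        ∀ m < 2 * R, z (((p + 1 : ℕ) : ℤ) + m) = z (((q + 1 : ℕ) : ℤ) + m) := by
      have := Fintype.ofFinite A
      have hcard : Fintype.card (Fin (2 * R) → A) < Fintype.card (Fin (Nat.card A ^ (2 * R) + 1)) := by
        rw [Fintype.card_fun, Fintype.card_fin, Fintype.card_fin, Nat.card_eq_fintype_card]
        exact Nat.lt_succ_self _
      obtain ⟨p, q, hne, hw⟩ := Fintype.exists_ne_map_eq_of_card_lt
        (fun (q : Fin (Nat.card A ^ (2 * R) + 1)) (m : Fin (2 * R)) =>
          z (((q.1 + 1 : ℕ) : ℤ) + (m.1 : ℕ))) hcard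
      have hw' : ∀ m < 2 * R, z (((p.1 + 1 : ℕ) : ℤ) + m) = z (((q.1 + 1 : ℕ) : ℤ) + m) :=
        fun m hm => congrFun hw ⟨m, hm⟩
      rcases lt_or_gt_of_ne (fun h => hne (Fin.ext h) : p.1 ≠ q.1) with h | h
      · exact ⟨p.1, q.1, h, Nat.lt_succ_iff.1 q.2, hw'⟩
      · exact ⟨q.1, p.1, h, Nat.lt_succ_iff.1 p.2, fun m hm => (hw' m hm).symm⟩
    have hlt : Nat.find hex - (q - p) < Nat.find hex := by omega
    refine Nat.find_min hex hlt ⟨fun i => if i < (p : ℤ) + 1 then z i else z (i + ((q : ℤ) - p)),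
      ?_, ?_, ?_, ?_⟩
    · beta_reduce
      rw [if_pos (by omega)]
      exact hz0
    · intro i hi
      beta_reduce
      rw [if_pos (by omega)]
      exact hneg i hi
    · intro i hi
      have h1 : ((Nat.find hex - (q - p) : ℕ) : ℤ) = (Nat.find hex : ℤ) - (q - p) := by
        rw [Nat.cast_sub (by omega), Nat.cast_sub hpq.le]
      rw [h1] at hi
      have h2 : (q : ℤ) + 1 ≤ Nat.find hex := by
        have : q + 1 ≤ Nat.find hex := by omega
        exact_mod_cast this
      beta_reduce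
      rw [if_neg (by omega)]
      exact hpos _ (by omega)
    · refine hS z _ hSz fun i => ?_
      have hz' : ∀ m : ℤ, m < (p : ℤ) + 1 + 2 * R →
          (if m < (p : ℤ) + 1 then z m else z (m + ((q : ℤ) - p))) = z m := by
        intro m hm
        by_cases h1 : m < (p : ℤ) + 1
        · rw [if_pos h1]
        · rw [if_neg h1]
          obtain ⟨n, hn⟩ := Int.eq_ofNat_of_zero_le (sub_nonneg.2 (not_lt.1 h1))
          have h2 := hw n (by omega)
          have e1 : m = ((p + 1 : ℕ) : ℤ) + n := by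
            push_cast
            have : m - ((p : ℤ) + 1) = (n : ℤ) := hn
            linarith
          have e2 : m + ((q : ℤ) - p) = ((q + 1 : ℕ) : ℤ) + n := by
            rw [e1]
            push_cast
            ring
          rw [e2, ← h2, ← e1]
      by_cases h1 : i - R < (p : ℤ) + 1
      · refine ⟨i, fun k hk => ?_⟩
        have := (abs_le.1 hk).2
        exact hz' _ (by linarith)
      · refine ⟨i + ((q : ℤ) - p), fun k hk => ?_⟩
        have h2 := (abs_le.1 hk).1
        have h3 : ¬ (i + k < (p : ℤ) + 1) := by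
          push Not at h1 ⊢
          linarith
        simp only [if_neg h3]
        rw [show i + k + ((q : ℤ) - p) = i + ((q : ℤ) - p) + k by ring]

end Pool.Agent.Q206.SO
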