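import Pool.Agent.Q206.SO.Stm

/-! # An eigenvalue which is a constant root of unity -/

open LaurentPolynomial

namespace Pool.Agent.Q206.SO

theorem exists_factor {p : ℕ} [Fact p.Prime] {k : ℕ} (N : Matrix (Fin k) (Fin k) (Rb p))
    (s : Multiset (Kb p)) : ∀ v : Fin k → Rb p, v ≠ 0 →
    ((Polynomial.aeval N (s.map fun a => Polynomial.X - Polynomial.C a).prod)).mulVec v = 0 →
    ∃ ρ ∈ s, ∃ v' : Fin k → Rb p, v' ≠ 0 ∧ N.mulVec v' = (C ρ : Rb p) • v' := by
  induction s using Multiset.induction_on with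
  | empty =>
    intro v hv h
    simp only [Multiset.map_zero, Multiset.prod_zero, map_one, Matrix.one_mulVec] at h
    exact absurd h hv
  | cons a s ih =>
    intro v hv h
    rw [Multiset.map_cons, Multiset.prod_cons, mul_comm, map_mul, ← Matrix.mulVec_mulVec] at h
    by_cases h0 : (Polynomial.aeval N (Polynomial.X - Polynomial.C a)).mulVec v = 0
    · refine ⟨a, Multiset.mem_cons_self _ _, v, hv, ?_⟩
      rw [map_sub, Polynomial.aeval_X, Polynomial.aeval_C, Matrix.sub_mulVec, sub_eq_zero] at h0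
      rw [h0]
      ext1 i
      simp [Algebra.algebraMap_eq_smul_one, Matrix.smul_mulVec, LaurentPolynomial.smul_eq_C_mul]
    · obtain ⟨ρ, hρ, v', h1, h2⟩ := ih _ h0 h
      exact ⟨ρ, Multiset.mem_cons_of_mem hρ, v', h1, h2⟩

theorem root : S_root := by
  intro p _ k t N v ht hv h
  have hmon : (Polynomial.X ^ t - 1 : Polynomial (Kb p)).Monic :=
    Polynomial.monic_X_pow_sub_C 1 (by omega)
  have hsp : (Polynomial.X ^ t - 1 : Polynomial (Kb p)) =
      ((Polynomial.X ^ t - 1 : Polynomial (Kb p)).roots.map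
        fun a => Polynomial.X - Polynomial.C a).prod := by
    have h1 := (IsAlgClosed.splits (Polynomial.X ^ t - 1 : Polynomial (Kb p))).eq_prod_roots
    rw [hmon.leadingCoeff, Polynomial.C_1, one_mul] at h1
    exact h1
  have h2 : (Polynomial.aeval N (Polynomial.X ^ t - 1 : Polynomial (Kb p))).mulVec v = 0 := by
    rw [map_sub, map_pow, Polynomial.aeval_X, map_one, Matrix.sub_mulVec, h, Matrix.one_mulVec,
      sub_self]
  rw [hsp] at h2
  obtain ⟨ρ, hρ, v', h3, h4⟩ := exists_factor N _ v hv h2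
  refine ⟨ρ, ?_, v', h3, h4⟩
  have h5 := (Polynomial.mem_roots hmon.ne_zero).mp hρ
  simp only [Polynomial.IsRoot.def, Polynomial.eval_sub, Polynomial.eval_pow, Polynomial.eval_X,
    Polynomial.eval_one] at h5
  exact sub_eq_zero.mp h5

end Pool.Agent.Q206.SO
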