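import Pool.Agent.Q206.SO.Stm

/-!
# One step of the automaton on lists of numbers

Project SO (helper206), job SO-STEP (helper184).
-/

namespace Pool.Agent.Q206.SO

namespace JStep

variable {A : Type} [AddCommGroup A] {n : ℕ} (e : Fin n ≃ A)

theorem getD_finRange {α : Type} (f : Fin n → α) (a : ℕ) (d : α) (ha : a < n) :
    ((List.finRange n).map f).getD a d = f ⟨a, ha⟩ := by
  rw [List.getD_eq_getElem?_getD, List.getElem?_map, List.getElem?_eq_getElem (by simpa using ha)]
  simp

theorem dc_lt {a : ℕ} (ha : a < n) : dc e a = e ⟨a, ha⟩ := by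
  unfold dc
  rw [dif_pos ha]

theorem dc_symm (x : A) : dc e (e.symm x : ℕ) = x := by
  rw [dc_lt e (e.symm x).isLt]
  simp

theorem symm_dc {a : ℕ} (ha : a < n) : ((e.symm (dc e a) : Fin n) : ℕ) = a := by
  rw [dc_lt e ha]
  simp

variable {r : ℕ} (h : Fin (2 * r + 1) → (A →+ A))

theorem tab2_code {a b : ℕ} (ha : a < n) (hb : b < n) :
    tab2 (code e h).2.1 a b = (e.symm (dc e a + dc e b) : ℕ) := by
  unfold tab2 code
  dsimp only
  rw [getD_finRange _ a [] ha, getD_finRange _ b 0 hb, dc_lt e ha, dc_lt e hb]

theorem tabh_code {j a : ℕ} (hj : j < 2 * r + 1) (ha : a < n) :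
    (((code e h).2.2.2.getD j []).getD a 0) = (e.symm (h ⟨j, hj⟩ (dc e a)) : ℕ) := by
  unfold code
  dsimp only
  rw [getD_finRange _ j [] hj, getD_finRange _ a 0 ha, dc_lt e ha]

theorem foldl_range_succ {α : Type} (f : α → ℕ → α) (c : α) (m : ℕ) :
    (List.range (m + 1)).foldl f c = f ((List.range m).foldl f c) m := by
  rw [List.range_succ, List.foldl_append]
  rfl

theorem zeroOf_code : zeroOf (code e h) = (e.symm 0 : ℕ) := by
  have key : ∀ m, m ≤ n →
      (List.range m).foldl (fun c a => if tab2 (code e h).2.1 a a = a then a else c) 0 =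
        if ((e.symm 0 : Fin n) : ℕ) < m then ((e.symm 0 : Fin n) : ℕ) else 0 := by
    intro m
    induction m with
    | zero => intro _; simp
    | succ m ih =>
      intro hm
      rw [foldl_range_succ, ih (by omega), tab2_code e h (by omega) (by omega)]
      have hm' : m < n := by omega
      have h1 : ((e.symm (dc e m + dc e m) : Fin n) : ℕ) = m ↔ ((e.symm 0 : Fin n) : ℕ) = m := by
        constructor
        · intro h2
          have h3 : dc e ((e.symm (dc e m + dc e m) : Fin n) : ℕ) = dc e m := by rw [h2]
          rw [dc_symm] at h3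
          have h4 : dc e m = 0 := by
            have := congrArg (fun x => x - dc e m) h3
            simpa using this
          rw [← h4, symm_dc e hm']
        · intro h2
          have h3 : dc e m = 0 := by rw [← h2, dc_symm]
          rw [h3, add_zero, h2]
      by_cases h5 : ((e.symm 0 : Fin n) : ℕ) = m
      · rw [if_pos (h1.2 h5), if_pos (by omega), h5]
      · rw [if_neg (fun h6 => h5 (h1.1 h6))]
        by_cases h6 : ((e.symm 0 : Fin n) : ℕ) < m
        · rw [if_pos h6, if_pos (by omega)]
        · rw [if_neg h6, if_neg (by omega)]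
  have h1 := key n le_rfl
  rw [if_pos (e.symm 0).isLt] at h1
  exact h1

/-- the content of the cell `k` -/
def val (l : List ℕ) (k : ℤ) : A :=
  if 0 ≤ k ∧ k.toNat < l.length then dc e (l.getD k.toNat 0) else 0

theorem cfg_eq (off : ℤ) (l : List ℕ) (i : ℤ) : cfg e off l i = val e l (i + off) := rfl

/-- the entry which is read -/
def entry (l : List ℕ) (i j : ℕ) : ℕ :=
  if 2 * r ≤ i + j then l.getD (i + j - 2 * r) (zeroOf (code e h)) else zeroOf (code e h)

theorem dc_entry (l : List ℕ) (i j : ℕ) :
    dc e (entry e h l i j) = val e l ((i : ℤ) + j - 2 * r) := by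
  unfold entry val
  by_cases h1 : 2 * r ≤ i + j
  · have h2 : (i : ℤ) + j - 2 * r = ((i + j - 2 * r : ℕ) : ℤ) := by omega
    rw [if_pos h1, h2, Int.toNat_natCast]
    by_cases h3 : i + j - 2 * r < l.length
    · rw [if_pos ⟨Int.natCast_nonneg _, h3⟩, List.getD_eq_getElem _ _ h3,
        List.getD_eq_getElem _ _ h3]
    · rw [if_neg (fun h4 => h3 h4.2), List.getD_eq_default _ _ (not_lt.1 h3), zeroOf_code, dc_symm]
  · rw [if_neg h1, if_neg (by omega), zeroOf_code, dc_symm]

theorem entry_lt {l : List ℕ} (hl : ∀ a ∈ l, a < n) (i j : ℕ) : entry e h l i j < n := by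
  unfold entry
  have hz : zeroOf (code e h) < n := by
    rw [zeroOf_code]
    exact (e.symm 0).isLt
  by_cases h1 : 2 * r ≤ i + j
  · rw [if_pos h1]
    by_cases h3 : i + j - 2 * r < l.length
    · rw [List.getD_eq_getElem _ _ h3]
      exact hl _ (List.getElem_mem h3)
    · rw [List.getD_eq_default _ _ (not_lt.1 h3)]
      exact hz
  · rw [if_neg h1]
    exact hz

theorem cell_eq (l : List ℕ) (i : ℕ) :
    cell (code e h) l i = (List.range (2 * r + 1)).foldl
      (fun c j => tab2 (code e h).2.1 c (((code e h).2.2.2.getD j []).getD (entry e h l i j) 0))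
      (zeroOf (code e h)) := rfl

theorem cell_spec {l : List ℕ} (hl : ∀ a ∈ l, a < n) (i : ℕ) :
    cell (code e h) l i < n ∧
      dc e (cell (code e h) l i) =
        ∑ j : Fin (2 * r + 1), h j (val e l ((i : ℤ) + (j : ℕ) - 2 * r)) := by
  have key : ∀ m, m ≤ 2 * r + 1 →
      (List.range m).foldl (fun c j => tab2 (code e h).2.1 c
        (((code e h).2.2.2.getD j []).getD (entry e h l i j) 0)) (zeroOf (code e h)) < n ∧
      dc e ((List.range m).foldl (fun c j => tab2 (code e h).2.1 c
        (((code e h).2.2.2.getD j []).getD (entry e h l i j) 0)) (zeroOf (code e h))) =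
        ∑ j ∈ Finset.range m, if hj : j < 2 * r + 1 then
          h ⟨j, hj⟩ (val e l ((i : ℤ) + j - 2 * r)) else 0 := by
    intro m
    induction m with
    | zero =>
      intro _
      have h0 : (List.range 0).foldl (fun c j => tab2 (code e h).2.1 c
        (((code e h).2.2.2.getD j []).getD (entry e h l i j) 0)) (zeroOf (code e h)) =
          zeroOf (code e h) := rfl
      rw [h0, zeroOf_code]
      refine ⟨(e.symm 0).isLt, ?_⟩
      rw [dc_symm, Finset.sum_range_zero]
    | succ m ih =>
      intro hm
      obtain ⟨h1, h2⟩ := ih (by omega)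
      have hm' : m < 2 * r + 1 := by omega
      rw [foldl_range_succ, Finset.sum_range_succ, dif_pos hm', ← h2,
        tabh_code e h hm' (entry_lt e h hl i m), dc_entry,
        tab2_code e h h1 (e.symm _).isLt, dc_symm, dc_symm]
      exact ⟨(e.symm _).isLt, rfl⟩
  obtain ⟨h1, h2⟩ := key (2 * r + 1) le_rfl
  rw [cell_eq]
  refine ⟨h1, ?_⟩
  rw [h2, Finset.sum_range]
  refine Finset.sum_congr rfl fun j _ => ?_
  rw [dif_pos j.isLt]

theorem length_stepL (l : List ℕ) : (stepL (code e h) l).length = l.length + 2 * r := by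
  show ((List.range (l.length + 2 * r)).map (cell (code e h) l)).length = l.length + 2 * r
  rw [List.length_map, List.length_range]

theorem getD_stepL (l : List ℕ) {k : ℕ} (hk : k < l.length + 2 * r) :
    (stepL (code e h) l).getD k 0 = cell (code e h) l k := by
  show ((List.range (l.length + 2 * r)).map (cell (code e h) l)).getD k 0 = cell (code e h) l k
  rw [List.getD_eq_getElem _ _ (by rw [List.length_map, List.length_range]; exact hk)]
  simp

theorem val_stepL {l : List ℕ} (hl : ∀ a ∈ l, a < n) (k : ℤ) :
    val e (stepL (code e h) l) k =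
      ∑ j : Fin (2 * r + 1), h j (val e l (k + (j : ℕ) - 2 * r)) := by
  by_cases h1 : 0 ≤ k ∧ k.toNat < l.length + 2 * r
  · have h2 : k = (k.toNat : ℤ) := by omega
    have h3 : val e (stepL (code e h) l) k = dc e ((stepL (code e h) l).getD k.toNat 0) := by
      unfold val
      rw [if_pos]
      rw [length_stepL]
      exact h1
    rw [h3, getD_stepL e h l h1.2, (cell_spec e h hl k.toNat).2, ← h2]
  · have h3 : val e (stepL (code e h) l) k = 0 := by
      unfold val
      rw [if_neg]
      rw [length_stepL]
      exact h1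
    rw [h3]
    symm
    refine Finset.sum_eq_zero fun j _ => ?_
    have h4 : val e l (k + (j : ℕ) - 2 * r) = 0 := by
      unfold val
      rw [if_neg]
      have hj := j.isLt
      omega
    rw [h4, map_zero]

end JStep

/-- JOB SO-STEP. -/
theorem step : S_step := by
  intro A _ n e r h
  refine ⟨JStep.zeroOf_code e h, fun l hl => ⟨?_, JStep.length_stepL e h l, fun off => ?_⟩⟩
  · intro a ha
    have h1 : a ∈ (List.range (l.length + 2 * r)).map (cell (code e h) l) := ha
    rw [List.mem_map] at h1
    obtain ⟨i, _, rfl⟩ := h1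
    exact (JStep.cell_spec e h hl i).1
  · funext i
    rw [JStep.cfg_eq, JStep.val_stepL e h hl]
    unfold ca
    refine Finset.sum_congr rfl fun j _ => ?_
    rw [JStep.cfg_eq]
    congr 2
    ring

end Pool.Agent.Q206.SO
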