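import Pool.Agent.Q206.SO.Stm

/-!
# Reduction of a soliton to a configuration killed by a prime
-/

set_option autoImplicit false

namespace Pool.Agent.Q206.SO

lemma jtor_ca_sub {A : Type} [AddCommGroup A] {r : ℕ} (h : Fin (2 * r + 1) → (A →+ A))
    (x y : ℤ → A) : ca h (x - y) = ca h x - ca h y := by
  funext i
  simp only [ca, Pi.sub_apply, map_sub, Finset.sum_sub_distrib]

lemma jtor_ca_nsmul {A : Type} [AddCommGroup A] {r : ℕ} (h : Fin (2 * r + 1) → (A →+ A))
    (n : ℕ) (x : ℤ → A) : ca h (n • x) = n • ca h x := by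
  funext i
  simp only [ca, Pi.smul_apply, map_nsmul, Finset.smul_sum]

lemma jtor_iter_sub {A : Type} [AddCommGroup A] {r : ℕ} (h : Fin (2 * r + 1) → (A →+ A))
    (t : ℕ) : ∀ x y : ℤ → A, (ca h)^[t] (x - y) = (ca h)^[t] x - (ca h)^[t] y := by
  induction t with
  | zero => intro x y; rfl
  | succ t ih =>
    intro x y
    rw [Function.iterate_succ_apply, Function.iterate_succ_apply, Function.iterate_succ_apply,
      jtor_ca_sub, ih]

lemma jtor_iter_nsmul {A : Type} [AddCommGroup A] {r : ℕ} (h : Fin (2 * r + 1) → (A →+ A))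
    (n : ℕ) (t : ℕ) : ∀ x : ℤ → A, (ca h)^[t] (n • x) = n • (ca h)^[t] x := by
  induction t with
  | zero => intro x; rfl
  | succ t ih =>
    intro x
    rw [Function.iterate_succ_apply, Function.iterate_succ_apply, jtor_ca_nsmul, ih]

theorem tor : S_tor := by
  intro A _ _ r h hS
  obtain ⟨x, y, hxy, hfin, D, hD⟩ := hS
  set z : ℤ → A := x - y with hz
  have hz0 : z ≠ 0 := by
    intro h0
    exact hxy (sub_eq_zero.mp h0)
  have hex : ∃ n : ℕ, 1 ≤ n ∧ n • z = 0 := by
    refine ⟨Nat.card A, Nat.card_pos, ?_⟩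
    funext i
    simp only [Pi.smul_apply, Pi.zero_apply]
    exact card_nsmul_eq_zero'
  classical
  obtain ⟨n, ⟨hn1, hnz⟩, hmin⟩ :
      ∃ n : ℕ, (1 ≤ n ∧ n • z = 0) ∧ ∀ m : ℕ, m < n → ¬ (1 ≤ m ∧ m • z = 0) :=
    ⟨Nat.find hex, Nat.find_spec hex, fun m hm => Nat.find_min hex hm⟩
  have hn : n ≠ 1 := by
    rintro rfl
    rw [one_smul] at hnz
    exact hz0 hnz
  obtain ⟨p, hp, m, rfl⟩ := Nat.exists_prime_and_dvd hn
  have hm1 : 1 ≤ m := by
    rcases Nat.eq_zero_or_pos m with h0 | h0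
    · subst h0; simp at hn1
    · exact h0
  have hmlt : m < p * m := by
    have := hp.two_le
    nlinarith
  refine ⟨p, hp, m • z, ?_, ?_, ?_, D, ?_⟩
  · intro h0
    exact hmin m hmlt ⟨hm1, h0⟩
  · refine hfin.subset ?_
    intro i hi hxi
    apply hi
    simp only [hz, Pi.smul_apply, Pi.sub_apply]
    rw [hxi, sub_self, smul_zero]
  · intro i
    have h1 := congrFun hnz i
    simp only [Pi.smul_apply, Pi.zero_apply] at h1 ⊢
    rw [← mul_smul]
    exact h1
  · intro t i j hi hj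
    have key : ∀ i : ℤ, (ca h)^[t] (m • z) i ≠ 0 → (ca h)^[t] x i ≠ (ca h)^[t] y i := by
      intro i hi hxi
      apply hi
      rw [jtor_iter_nsmul, hz, jtor_iter_sub]
      simp only [Pi.smul_apply, Pi.sub_apply]
      rw [hxi, sub_self, smul_zero]
    exact hD t i j (key i hi) (key j hj)

end Pool.Agent.Q206.SO
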