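import Pool.Agent.Q206.SO.Stm2

/-! # The test for descriptions is computable -/

namespace Pool.Agent.Q206.SO

theorem all_mem {α γ : Type} [Primcodable α] [Primcodable γ] {Q : α → γ → Prop}
    (hQ : PrimrecPred fun p : α × γ => Q p.1 p.2) {f : γ → List α} (hf : Primrec f) :
    PrimrecPred fun y => ∀ x ∈ f y, Q x y :=
  PrimrecRel.comp (PrimrecRel.forall_mem_list (show PrimrecRel Q from hQ)) hf Primrec.id

theorem ex_mem {α γ : Type} [Primcodable α] [Primcodable γ] {Q : α → γ → Prop}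
    (hQ : PrimrecPred fun p : α × γ => Q p.1 p.2) {f : γ → List α} (hf : Primrec f) :
    PrimrecPred fun y => ∃ x ∈ f y, Q x y :=
  PrimrecRel.comp (PrimrecRel.exists_mem_list (show PrimrecRel Q from hQ)) hf Primrec.id

theorem all_lt {γ : Type} [Primcodable γ] {Q : ℕ → γ → Prop}
    (hQ : PrimrecPred fun p : ℕ × γ => Q p.1 p.2) {f : γ → ℕ} (hf : Primrec f) :
    PrimrecPred fun y => ∀ x < f y, Q x y :=
  (all_mem hQ (Primrec.list_range.comp hf)).of_eq fun y => by simp

theorem ex_lt {γ : Type} [Primcodable γ] {Q : ℕ → γ → Prop}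
    (hQ : PrimrecPred fun p : ℕ × γ => Q p.1 p.2) {f : γ → ℕ} (hf : Primrec f) :
    PrimrecPred fun y => ∃ x < f y, Q x y :=
  (ex_mem hQ (Primrec.list_range.comp hf)).of_eq fun y => by simp

theorem getD_prim {γ : Type} [Primcodable γ] {f : γ → List ℕ} {g : γ → ℕ} (hf : Primrec f)
    (hg : Primrec g) : Primrec fun y => (f y).getD (g y) 0 :=
  (Primrec.list_getD 0).comp hf hg

theorem tab2_prim {γ : Type} [Primcodable γ] {f : γ → List (List ℕ)} {g k : γ → ℕ}
    (hf : Primrec f) (hg : Primrec g) (hk : Primrec k) : Primrec fun y => tab2 (f y) (g y) (k y) :=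
  getD_prim ((Primrec.list_getD []).comp hf hg) hk

theorem okRow_prim {γ : Type} [Primcodable γ] {f : γ → ℕ} {g : γ → List ℕ}
    (hf : Primrec f) (hg : Primrec g) : PrimrecPred fun y => okRow (f y) (g y) = true := by
  refine PrimrecPred.of_eq (p := fun y => (g y).length = f y ∧ ∀ a ∈ g y, a < f y) ?_ ?_
  · exact (Primrec.eq.comp (Primrec.list_length.comp hg) hf).and
      (all_mem (Q := fun a y => a < f y) (Primrec.nat_lt.comp Primrec.fst (hf.comp Primrec.snd)) hg)
  · intro y
    simp [okRow]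

theorem okTab_prim {γ : Type} [Primcodable γ] {f : γ → ℕ} {g : γ → List (List ℕ)}
    (hf : Primrec f) (hg : Primrec g) : PrimrecPred fun y => okTab (f y) (g y) = true := by
  refine PrimrecPred.of_eq (p := fun y => (((g y).length = f y ∧
    ∀ row ∈ g y, okRow (f y) row = true) ∧
    ∀ a < f y, ∀ b < f y, tab2 (g y) a b = tab2 (g y) b a ∧
      ∀ c < f y, tab2 (g y) (tab2 (g y) a b) c = tab2 (g y) a (tab2 (g y) b c)) ∧
    ∃ o < f y, ∀ a < f y, tab2 (g y) a o = a ∧ ∃ b < f y, tab2 (g y) a b = o) ?_ ?_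
  · have h1 : PrimrecPred fun y => (g y).length = f y ∧ ∀ row ∈ g y, okRow (f y) row = true :=
      (Primrec.eq.comp (Primrec.list_length.comp hg) hf).and
        (all_mem (Q := fun row y => okRow (f y) row = true)
          (okRow_prim (hf.comp Primrec.snd) Primrec.fst) hg)
    have h2 : PrimrecPred fun y => ∀ a < f y, ∀ b < f y, tab2 (g y) a b = tab2 (g y) b a ∧
        ∀ c < f y, tab2 (g y) (tab2 (g y) a b) c = tab2 (g y) a (tab2 (g y) b c) := by
      refine all_lt (Q := fun a y => ∀ b < f y, tab2 (g y) a b = tab2 (g y) b a ∧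
        ∀ c < f y, tab2 (g y) (tab2 (g y) a b) c = tab2 (g y) a (tab2 (g y) b c)) ?_ hf
      refine all_lt (γ := ℕ × γ) (f := fun q => f q.2)
        (Q := fun b q => tab2 (g q.2) q.1 b = tab2 (g q.2) b q.1 ∧
        ∀ c < f q.2, tab2 (g q.2) (tab2 (g q.2) q.1 b) c = tab2 (g q.2) q.1 (tab2 (g q.2) b c))
        ?_ (hf.comp Primrec.snd)
      have hg' : Primrec fun q : ℕ × ℕ × γ => g q.2.2 := hg.comp (Primrec.snd.comp Primrec.snd)
      have ha : Primrec fun q : ℕ × ℕ × γ => q.2.1 := Primrec.fst.comp Primrec.snd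
      have hb : Primrec fun q : ℕ × ℕ × γ => q.1 := Primrec.fst
      refine (Primrec.eq.comp (tab2_prim hg' ha hb) (tab2_prim hg' hb ha)).and ?_
      refine all_lt (γ := ℕ × ℕ × γ) (f := fun q => f q.2.2)
        (Q := fun c q => tab2 (g q.2.2) (tab2 (g q.2.2) q.2.1 q.1) c =
          tab2 (g q.2.2) q.2.1 (tab2 (g q.2.2) q.1 c)) ?_
        (hf.comp (Primrec.snd.comp Primrec.snd))
      have hg'' : Primrec fun q : ℕ × ℕ × ℕ × γ => g q.2.2.2 := hg'.comp Primrec.snd
      have ha' : Primrec fun q : ℕ × ℕ × ℕ × γ => q.2.2.1 := ha.comp Primrec.snd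
      have hb' : Primrec fun q : ℕ × ℕ × ℕ × γ => q.2.1 := hb.comp Primrec.snd
      have hc' : Primrec fun q : ℕ × ℕ × ℕ × γ => q.1 := Primrec.fst
      exact Primrec.eq.comp (tab2_prim hg'' (tab2_prim hg'' ha' hb') hc')
        (tab2_prim hg'' ha' (tab2_prim hg'' hb' hc'))
    have h3 : PrimrecPred fun y => ∃ o < f y, ∀ a < f y, tab2 (g y) a o = a ∧
        ∃ b < f y, tab2 (g y) a b = o := by
      refine ex_lt (Q := fun o y => ∀ a < f y, tab2 (g y) a o = a ∧
        ∃ b < f y, tab2 (g y) a b = o) ?_ hf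
      refine all_lt (γ := ℕ × γ) (f := fun q => f q.2)
        (Q := fun a q => tab2 (g q.2) a q.1 = a ∧ ∃ b < f q.2, tab2 (g q.2) a b = q.1)
        ?_ (hf.comp Primrec.snd)
      have hg' : Primrec fun q : ℕ × ℕ × γ => g q.2.2 := hg.comp (Primrec.snd.comp Primrec.snd)
      have ho : Primrec fun q : ℕ × ℕ × γ => q.2.1 := Primrec.fst.comp Primrec.snd
      have ha : Primrec fun q : ℕ × ℕ × γ => q.1 := Primrec.fst
      refine (Primrec.eq.comp (tab2_prim hg' ha ho) ha).and ?_
      refine ex_lt (γ := ℕ × ℕ × γ) (f := fun q => f q.2.2)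
        (Q := fun b q => tab2 (g q.2.2) q.1 b = q.2.1) ?_
        (hf.comp (Primrec.snd.comp Primrec.snd))
      exact Primrec.eq.comp (tab2_prim (hg'.comp Primrec.snd) (ha.comp Primrec.snd) Primrec.fst)
        (ho.comp Primrec.snd)
    exact (h1.and h2).and h3
  · intro y
    simp [okTab]

theorem okHom_prim {γ : Type} [Primcodable γ] {f : γ → ℕ} {g : γ → List (List ℕ)}
    {k : γ → List ℕ} (hf : Primrec f) (hg : Primrec g) (hk : Primrec k) :
    PrimrecPred fun y => okHom (f y) (g y) (k y) = true := by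
  refine PrimrecPred.of_eq (p := fun y => okRow (f y) (k y) = true ∧
    ∀ a < f y, ∀ b < f y, (k y).getD (tab2 (g y) a b) 0 =
      tab2 (g y) ((k y).getD a 0) ((k y).getD b 0)) ?_ ?_
  · refine (okRow_prim hf hk).and ?_
    refine all_lt (Q := fun a y => ∀ b < f y, (k y).getD (tab2 (g y) a b) 0 =
      tab2 (g y) ((k y).getD a 0) ((k y).getD b 0)) ?_ hf
    refine all_lt (γ := ℕ × γ) (f := fun q => f q.2)
      (Q := fun b q => (k q.2).getD (tab2 (g q.2) q.1 b) 0 =
        tab2 (g q.2) ((k q.2).getD q.1 0) ((k q.2).getD b 0)) ?_ (hf.comp Primrec.snd)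
    have hg' : Primrec fun q : ℕ × ℕ × γ => g q.2.2 := hg.comp (Primrec.snd.comp Primrec.snd)
    have hk' : Primrec fun q : ℕ × ℕ × γ => k q.2.2 := hk.comp (Primrec.snd.comp Primrec.snd)
    have ha : Primrec fun q : ℕ × ℕ × γ => q.2.1 := Primrec.fst.comp Primrec.snd
    have hb : Primrec fun q : ℕ × ℕ × γ => q.1 := Primrec.fst
    exact Primrec.eq.comp (getD_prim hk' (tab2_prim hg' ha hb))
      (tab2_prim hg' (getD_prim hk' ha) (getD_prim hk' hb))
  · intro y
    simp [okHom]

theorem valc : S_valc := by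
  have h1 : PrimrecPred fun I : Input => valid I = true := by
    have hn : Primrec fun I : Input => I.1 := Primrec.fst
    have hT : Primrec fun I : Input => I.2.1 := Primrec.fst.comp Primrec.snd
    have hr : Primrec fun I : Input => I.2.2.1 :=
      Primrec.fst.comp (Primrec.snd.comp Primrec.snd)
    have hH : Primrec fun I : Input => I.2.2.2 :=
      Primrec.snd.comp (Primrec.snd.comp Primrec.snd)
    refine PrimrecPred.of_eq (p := fun I : Input => (okTab I.1 I.2.1 = true ∧
      I.2.2.2.length = 2 * I.2.2.1 + 1) ∧ ∀ row ∈ I.2.2.2, okHom I.1 I.2.1 row = true) ?_ ?_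
    · refine ((okTab_prim hn hT).and (Primrec.eq.comp (Primrec.list_length.comp hH)
        (Primrec.succ.comp (Primrec.nat_mul.comp (Primrec.const 2) hr)))).and ?_
      exact all_mem (Q := fun row (I : Input) => okHom I.1 I.2.1 row = true)
        (okHom_prim (hn.comp Primrec.snd) (hT.comp Primrec.snd) Primrec.fst) hH
    · intro I
      simp [valid]
  obtain ⟨_, h2⟩ := h1
  exact (h2.of_eq (fun I => by simp)).to_comp

end Pool.Agent.Q206.SO
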