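import Pool.Agent.Q206.SO.Stm

set_option autoImplicit false

namespace Pool.Agent.Q206.SO

theorem digits_exist {n : ℕ} (L : ℕ) : ∀ d : ℕ → ℕ, (∀ i, d i < n) →
    ∃ c < n ^ L, ∀ j < L, c / n ^ j % n = d j := by
  induction L with
  | zero =>
    intro d _
    exact ⟨0, by simp, fun j hj => absurd hj (Nat.not_lt_zero j)⟩
  | succ L ih =>
    intro d hd
    obtain ⟨c, hc, h⟩ := ih (fun i => d (i + 1)) (fun i => hd (i + 1))
    have hn : 0 < n := lt_of_le_of_lt (Nat.zero_le _) (hd 0)
    have hdiv : (d 0 + n * c) / n = c := by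
      rw [Nat.add_mul_div_left _ _ hn, Nat.div_eq_of_lt (hd 0), Nat.zero_add]
    refine ⟨d 0 + n * c, ?_, ?_⟩
    · have h1 : n * (c + 1) ≤ n * n ^ L := Nat.mul_le_mul_left n hc
      have h2 := hd 0
      have h3 : n ^ (L + 1) = n * n ^ L := by rw [pow_succ, Nat.mul_comm]
      rw [h3]
      nlinarith
    · intro j hj
      cases j with
      | zero =>
        rw [pow_zero, Nat.div_one, Nat.add_mul_mod_self_left]
        exact Nat.mod_eq_of_lt (hd 0)
      | succ j =>
        have h1 : (d 0 + n * c) / n ^ (j + 1) = c / n ^ j := by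
          rw [pow_succ, Nat.mul_comm (n ^ j) n, ← Nat.div_div_eq_div_mul, hdiv]
        rw [h1]
        exact h j (by omega)

theorem dc_symm {A : Type} [AddCommGroup A] {n : ℕ} (e : Fin n ≃ A) (a : A) :
    dc e (e.symm a : ℕ) = a := by
  unfold dc
  rw [dif_pos (e.symm a).2]
  simp

theorem reps_length (k o : ℕ) : (reps k o).length = k := by simp [reps]

theorem reps_getD (k o i x : ℕ) (h : i < k) : (reps k o).getD i x = o := by
  simp [reps, List.getD_eq_getElem?_getD, h]

theorem word_length (n L c : ℕ) : (word n L c).length = L := by simp [word]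

theorem word_getD (n L c i x : ℕ) (h : i < L) : (word n L c).getD i x = c / n ^ i % n := by
  simp [word, List.getD_eq_getElem?_getD, h]

theorem word_proof : S_word := by
  intro A _ n e L
  have hn : 0 < n := lt_of_le_of_lt (Nat.zero_le _) (e.symm 0).2
  refine ⟨?_, ?_, ?_, ?_, ?_⟩
  · intro c
    refine ⟨?_, word_length n L c⟩
    intro a ha
    simp only [word, List.mem_map, List.mem_range] at ha
    obtain ⟨i, -, rfl⟩ := ha
    exact Nat.mod_lt _ hn
  · intro z hz0 hz1
    obtain ⟨c, hc, h⟩ := digits_exist (n := n) L (fun i => (e.symm (z i) : ℕ))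
      (fun i => (e.symm (z i)).2)
    refine ⟨c, hc, ?_⟩
    funext i
    unfold cfg
    rw [word_length]
    simp only [add_zero]
    by_cases hi : 0 ≤ i
    · by_cases hL : i.toNat < L
      · rw [if_pos ⟨hi, hL⟩, word_getD _ _ _ _ _ hL, h _ hL, dc_symm, Int.toNat_of_nonneg hi]
      · rw [if_neg (fun hh => hL hh.2)]
        exact (hz1 i (by omega)).symm
    · rw [if_neg (fun hh => hi hh.1)]
      exact (hz0 i (by omega)).symm
  · intro l l' off hl hl' hlen hcfg
    apply List.ext_getElem hlen
    intro i h1 h2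
    have h := congrFun hcfg ((i : ℤ) - off)
    unfold cfg at h
    rw [sub_add_cancel, Int.toNat_natCast, if_pos ⟨by omega, h1⟩, if_pos ⟨by omega, h2⟩,
      List.getD_eq_getElem _ _ h1, List.getD_eq_getElem _ _ h2] at h
    unfold dc at h
    rw [dif_pos (hl _ (List.getElem_mem h1)), dif_pos (hl' _ (List.getElem_mem h2))] at h
    exact congrArg Fin.val (e.injective h)
  · intro k off
    funext i
    unfold cfg
    rw [reps_length]
    by_cases hi : 0 ≤ i + off ∧ (i + off).toNat < k
    · rw [if_pos hi, reps_getD _ _ _ _ hi.2, dc_symm]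
      rfl
    · rw [if_neg hi]
      rfl
  · intro l s k
    funext i
    unfold cfg
    rw [List.length_append, List.length_append, reps_length, reps_length]
    simp only [add_zero]
    by_cases hi : 0 ≤ i
    · have hs : (i + (s : ℤ)).toNat = s + i.toNat := by omega
      have h1 : (reps s (e.symm 0 : ℕ) ++ (l ++ reps k (e.symm 0 : ℕ))).getD (i + (s : ℤ)).toNat 0 =
          (l ++ reps k (e.symm 0 : ℕ)).getD i.toNat 0 := by
        rw [hs, List.getD_append_right _ _ _ _ (by rw [reps_length]; omega), reps_length,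
          Nat.add_sub_cancel_left]
      rw [h1]
      by_cases hL : i.toNat < l.length
      · rw [if_pos ⟨hi, hL⟩, if_pos ⟨by omega, by omega⟩, List.getD_append _ _ _ _ hL]
      · rw [if_neg (fun hh => hL hh.2)]
        by_cases hk : i.toNat < l.length + k
        · rw [if_pos ⟨by omega, by omega⟩, List.getD_append_right _ _ _ _ (by omega),
            reps_getD _ _ _ _ (by omega), dc_symm]
        · rw [if_neg (fun hh => hk (by omega))]
    · rw [if_neg (fun hh => hi hh.1)]
      by_cases hk : 0 ≤ i + (s : ℤ)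
      · have hlt : (i + (s : ℤ)).toNat < s := by omega
        rw [if_pos ⟨hk, by omega⟩, List.getD_append _ _ _ _ (by rw [reps_length]; exact hlt),
          reps_getD _ _ _ _ hlt, dc_symm]
      · rw [if_neg (fun hh => hk hh.1)]

end Pool.Agent.Q206.SO
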