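import Pool.Agent.Q206.SO.Stm

/-! # The homomorphism `∑ a_e T ^ e ↦ ∑ a_e T ^ (t * e)` and kernel vectors -/

open LaurentPolynomial

namespace Pool.Agent.Q206.SO

/-- The homomorphism `∑ a_e T ^ e ↦ ∑ a_e T ^ (t * e)`. -/
noncomputable def phi (p : ℕ) [Fact p.Prime] (t : ℕ) : R p →+* Rb p :=
  (AddMonoidAlgebra.mapDomainRingHom (Kb p) (AddMonoidHom.mulLeft (t : ℤ))).comp
    (AddMonoidAlgebra.mapRingHom ℤ (algebraMap (ZMod p) (Kb p)))

theorem phi_eq (p : ℕ) [Fact p.Prime] (t : ℕ) (f : R p) :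
    (phi p t f).coeff = Finsupp.mapDomain (fun e : ℤ => (t : ℤ) * e)
      (f.coeff.mapRange (algebraMap (ZMod p) (Kb p)) (map_zero _)) := rfl

theorem mul_inj {t : ℕ} (ht : 1 ≤ t) : Function.Injective (fun e : ℤ => (t : ℤ) * e) := by
  intro a b hab
  have : (t : ℤ) ≠ 0 := by exact_mod_cast (by omega : t ≠ 0)
  exact mul_left_cancel₀ this hab

theorem isPhi (p : ℕ) [Fact p.Prime] (t : ℕ) (ht : 1 ≤ t) : IsPhi p t (phi p t) := by
  have hcoef : ∀ (f : R p) (e : ℤ),
      (phi p t f).coeff (t * e) = algebraMap (ZMod p) (Kb p) (f.coeff e) := by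
    intro f e
    rw [phi_eq, Finsupp.mapDomain_apply (mul_inj ht), Finsupp.mapRange_apply]
  refine ⟨?_, ?_, hcoef, ?_⟩
  · intro f g hfg
    apply LaurentPolynomial.ext
    intro e
    have h1 := hcoef f e
    rw [hfg, hcoef g e] at h1
    exact ((algebraMap (ZMod p) (Kb p)).injective h1).symm
  · intro n
    apply LaurentPolynomial.ext
    intro e
    rw [phi_eq]
    change (Finsupp.mapDomain (fun e : ℤ => (t : ℤ) * e) ((Finsupp.single n (1 : ZMod p)).mapRange
      (algebraMap (ZMod p) (Kb p)) (map_zero _))) e = (Finsupp.single ((t : ℤ) * n) (1 : Kb p)) e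
    rw [Finsupp.mapRange_single, Finsupp.mapDomain_single, map_one]
  · intro f e he
    rw [phi_eq]
    apply Finsupp.mapDomain_of_notMem_range
    rintro ⟨a, ha⟩
    exact he ⟨a, ha.symm⟩

/-- Back to the small ring: an eigenvector of the power `m`. -/
theorem kern {p : ℕ} [Fact p.Prime] {k : ℕ} (M : Matrix (Fin k) (Fin k) (R p))
    (φ : R p →+* Rb p) (hφ : Function.Injective φ) (m : ℕ) (a : R p) (v : Fin k → Rb p)
    (hv : v ≠ 0) (h : ((M.map φ) ^ m).mulVec v = φ a • v) :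
    ∃ v' : Fin k → R p, v' ≠ 0 ∧ (M ^ m).mulVec v' = a • v' := by
  have h1 : ((M ^ m - Matrix.scalar (Fin k) a).map φ).det = 0 := by
    rw [← Matrix.exists_mulVec_eq_zero_iff]
    refine ⟨v, hv, ?_⟩
    have h2 : (M ^ m - Matrix.scalar (Fin k) a).map φ =
        (M.map φ) ^ m - Matrix.scalar (Fin k) (φ a) := by
      have h3 := map_sub (φ.mapMatrix : Matrix (Fin k) (Fin k) (R p) →+* _) (M ^ m)
        (Matrix.scalar (Fin k) a)
      rw [map_pow] at h3
      simp only [RingHom.mapMatrix_apply] at h3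
      rw [h3]
      congr 1
      ext i j
      simp [Matrix.scalar_apply, Matrix.diagonal_apply, apply_ite φ]
    rw [h2, Matrix.sub_mulVec, h, sub_eq_zero]
    ext1 i
    simp [Matrix.scalar_apply, Matrix.mulVec_diagonal]
  have h4 : (M ^ m - Matrix.scalar (Fin k) a).det = 0 := by
    apply hφ
    rw [map_zero, RingHom.map_det]
    exact h1
  obtain ⟨v', hv', h5⟩ := Matrix.exists_mulVec_eq_zero_iff.mpr h4
  refine ⟨v', hv', ?_⟩
  rw [Matrix.sub_mulVec, sub_eq_zero] at h5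
  rw [h5]
  ext1 i
  simp [Matrix.scalar_apply, Matrix.mulVec_diagonal]

end Pool.Agent.Q206.SO
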