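import Pool.Agent.Q206.SO.Defs

/-!
# Abelian cellular automata and solitons: the lemmas

Each `S_*` is the statement of one lemma; the docstring has its proof.
-/

open LaurentPolynomial

namespace Pool.Agent.Q206.SO

/-- Laurent polynomials over the field with `p` elements. -/
abbrev R (p : ℕ) : Type := LaurentPolynomial (ZMod p)

/-- The algebraic closure of the field with `p` elements. -/
abbrev Kb (p : ℕ) [Fact p.Prime] : Type := AlgebraicClosure (ZMod p)

/-- Laurent polynomials over it. -/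
abbrev Rb (p : ℕ) [Fact p.Prime] : Type := LaurentPolynomial (Kb p)

/-- `φ` is the homomorphism `∑ a_e T ^ e ↦ ∑ a_e T ^ (t * e)`. -/
def IsPhi (p : ℕ) [Fact p.Prime] (t : ℕ) (φ : R p →+* Rb p) : Prop :=
  Function.Injective φ ∧ (∀ n : ℤ, φ (T n) = T (t * n)) ∧
    (∀ (f : R p) (e : ℤ), (φ f).coeff (t * e) = algebraMap (ZMod p) (Kb p) (f.coeff e)) ∧
    ∀ (f : R p) (e : ℤ), ¬ (t : ℤ) ∣ e → (φ f).coeff e = 0

/-- JOB root. Proof: `X ^ t - 1` is the product of the factors `X - ρ` over its roots `ρ` in the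
algebraically closed field `Kb p` (monic, splits). Hence `∏ (N - C ρ) v = (N ^ t - 1) v = 0`, and an
induction on the product gives a root `ρ` and a vector `v' ≠ 0` with `(N - C ρ) v' = 0`. -/
def S_root : Prop :=
  ∀ (p : ℕ) [Fact p.Prime] (k t : ℕ) (N : Matrix (Fin k) (Fin k) (Rb p)) (v : Fin k → Rb p),
    1 ≤ t → v ≠ 0 → (N ^ t).mulVec v = v →
    ∃ ρ : Kb p, ρ ^ t = 1 ∧ ∃ v' : Fin k → Rb p, v' ≠ 0 ∧ N.mulVec v' = (C ρ : Rb p) • v'

/-- JOB coef. Proof: the characteristic polynomial of `M.map φ` is the image of the characteristic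
polynomial `∑ i ≤ k, c_i X ^ i` of `M` (`c_k = 1`), and `C ρ * T s` is a root of it because
`det ((C ρ * T s) - M.map φ) = 0` (`Matrix.exists_mulVec_eq_zero_iff`; `Rb p` is a domain). So
`∑ i ≤ k, φ (c_i) * C (ρ ^ i) * T (s * i) = 0`; its coefficient at `s * k` is
`∑ i ≤ k, ρ ^ i * (φ (c_i)).coeff (s * (k - i))`, and `(φ (c_i)).coeff (s * (k - i))` is `0` if `t`
does not divide `s * (k - i)` and the image of an element `g i` of `ZMod p` if it does. -/
def S_coef : Prop :=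
  ∀ (p : ℕ) [Fact p.Prime] (k t : ℕ) (s : ℤ) (φ : R p →+* Rb p)
    (M : Matrix (Fin k) (Fin k) (R p)) (ρ : Kb p) (v : Fin k → Rb p),
    1 ≤ t → IsPhi p t φ → v ≠ 0 → (M.map φ).mulVec v = (C ρ * T s : Rb p) • v →
    ∃ g : ℕ → ZMod p, g k = 1 ∧
      ∑ i ∈ Finset.range (k + 1), algebraMap (ZMod p) (Kb p) (g i) * ρ ^ i = 0 ∧
      ∀ i ≤ k, g i ≠ 0 → (t : ℤ) ∣ s * ((k : ℤ) - i)

/-- JOB ord. Proof: `ρ` is a root of a monic polynomial of degree `k` with coefficients in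
`ZMod p`, so the field `(ZMod p)(ρ)` has degree `d ≤ k` and `p ^ d ≤ p ^ k` elements, and
`ρ ^ (p ^ d - 1) = 1` (`p ^ d - 1 ≥ 1`). -/
def S_ord : Prop :=
  ∀ (p : ℕ) [Fact p.Prime] (k : ℕ) (ρ : Kb p) (g : ℕ → ZMod p), ρ ≠ 0 → g k = 1 →
    ∑ i ∈ Finset.range (k + 1), algebraMap (ZMod p) (Kb p) (g i) * ρ ^ i = 0 →
    ∃ m : ℕ, 1 ≤ m ∧ m ≤ p ^ k ∧ ρ ^ m = 1

/-- JOB mat. Proof: `V = {a ∈ A | p • a = 0}` is a vector space over `ZMod p`
(`AddCommGroup.zmodModule`) with a basis `b` of `k` elements, `p ^ k = Nat.card V ≤ Nat.card A`. Put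
`φ v i = b.equivFun.symm (fun c => (v c).coeff i)` (an element of `A`). The maps `h j` restrict to
linear maps of `V`, with matrices `H j`; `M c d = ∑ j, C (H j c d) * T (r - j)`. Then
`((M.mulVec v) c).coeff i = ∑ j d, H j c d * (v d).coeff (i - (r - j))`, which is the claim
`φ (M.mulVec v) = ca h (φ v)`; surjectivity onto the configurations of finite support with values
in `V` by taking for `v c` the Laurent polynomial with coefficients `b.repr (z i) c`. -/
def S_mat : Prop :=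
  ∀ (A : Type) [AddCommGroup A] [Finite A] (p : ℕ) [Fact p.Prime] (r : ℕ)
    (h : Fin (2 * r + 1) → (A →+ A)),
    ∃ k : ℕ, p ^ k ≤ Nat.card A ∧ ∃ (M : Matrix (Fin k) (Fin k) (R p))
      (φ : (Fin k → R p) → (ℤ → A)), Function.Injective φ ∧ φ 0 = 0 ∧
      (∀ v, φ (M.mulVec v) = ca h (φ v)) ∧ (∀ (v : Fin k → R p) (s : ℤ),
        φ ((T s : R p) • v) = sh s (φ v)) ∧
      (∀ v, {i | φ v i ≠ 0}.Finite) ∧
      ∀ z : ℤ → A, {i | z i ≠ 0}.Finite → (∀ i, p • z i = 0) → ∃ v, φ v = z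

/-- JOB tor. Proof: with `z = x - y`, `F ^ t z = F ^ t x - F ^ t y` (`ca h` is additive), `z ≠ 0` of
finite support. Let `N` be the additive order of `z` in `ℤ → A` (`Nat.card A • z = 0`, so `N ≥ 1`,
and `N ≠ 1`), `p` a prime divisor of `N`, `z' = (N / p) • z`: `z' ≠ 0`, `p • z' = 0`, and the
support of `F ^ t z' = (N / p) • F ^ t z` is contained in that of `F ^ t z`. -/
def S_tor : Prop :=
  ∀ (A : Type) [AddCommGroup A] [Finite A] (r : ℕ) (h : Fin (2 * r + 1) → (A →+ A)),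
    HasSoliton (ca h) → ∃ p : ℕ, p.Prime ∧ ∃ z : ℤ → A, z ≠ 0 ∧ {i | z i ≠ 0}.Finite ∧
      (∀ i, p • z i = 0) ∧ ∃ D : ℕ, ∀ (t : ℕ) (i j : ℤ),
        (ca h)^[t] z i ≠ 0 → (ca h)^[t] z j ≠ 0 → |i - j| ≤ D

/-- JOB pig. Proof: if some `F ^ t z = 0`, take the least such `t` (`t ≥ 1`) and
`z' = F ^ (t - 1) z`. Otherwise every `F ^ t z` is a shift `sh a_t w_t` where `w_t 0 ≠ 0` and
`w_t i = 0` unless `0 ≤ i ≤ D` (`a_t` is the least element of the nonempty finite support). There are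
finitely many such `w`, so `w_t = w_u` for some `t < u`, and
`F ^ (u - t) (F ^ t z) = sh (a_u - a_t) (F ^ t z)`. -/
def S_pig : Prop :=
  ∀ (A : Type) [AddCommGroup A] [Finite A] (F : (ℤ → A) → (ℤ → A)) (z : ℤ → A) (D : ℕ),
    F 0 = 0 → z ≠ 0 → (∀ (t : ℕ) (i j : ℤ), F^[t] z i ≠ 0 → F^[t] z j ≠ 0 → |i - j| ≤ D) →
    ∃ t : ℕ, F^[t] z ≠ 0 ∧
      (F (F^[t] z) = 0 ∨ ∃ u : ℕ, 1 ≤ u ∧ ∃ s : ℤ, F^[u] (F^[t] z) = sh s (F^[t] z))

/-- JOB pump. Proof: shift a solution so that `0` is the first cell of its support (shifts satisfy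
the window condition), and choose a solution with `z 0 ≠ 0`, `z i = 0` for `i < 0` and for `i > b`,
with the least `b : ℕ`. Suppose `b > N = (Nat.card A) ^ (2 * R)`. Two of the `N + 1` windows
`(z q, …, z (q + 2 * R - 1))`, `1 ≤ q ≤ N + 1`, are equal, say those at `p < q`. Let `z' i = z i`
for `i < p` and `z' i = z (i + (q - p))` for `i ≥ p`. Then `z' i = z i` for all `i < p + 2 * R`, so
every window of length `2 * R + 1` of `z'` is a window of `z` (the same place if it starts before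
`p`, and `q - p` cells further otherwise); `z' 0 = z 0` and `z' i = 0` for `i > b - (q - p)`
(because `q ≤ N + 1 ≤ b`), a contradiction. -/
def S_pump : Prop :=
  ∀ (A : Type) [AddCommGroup A] [Finite A] (R : ℕ) (S : (ℤ → A) → Prop),
    (∀ z z' : ℤ → A, S z → (∀ i : ℤ, ∃ j : ℤ, ∀ k : ℤ, |k| ≤ R → z' (i + k) = z (j + k)) → S z') →
    (∃ z, z ≠ 0 ∧ {i | z i ≠ 0}.Finite ∧ S z) →
    ∃ z : ℤ → A, z 0 ≠ 0 ∧ (∀ i < 0, z i = 0) ∧
      (∀ i : ℤ, ((Nat.card A ^ (2 * R) : ℕ) : ℤ) < i → z i = 0) ∧ S z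

/-- JOB comp. Everything is primitive recursive (`Primrec`, `PrimrecPred.exists_mem_list`,
`Primrec.list_foldl`, `Primrec.list_map`, `Primrec.list_range`, `Primrec.nat_iterate`, …). -/
def S_comp : Prop := Computable dec

/-- JOB step. Proof: by the definitions of `code` and `cell` and an induction on the length of the
range in the `foldl`. -/
def S_step : Prop :=
  ∀ (A : Type) [AddCommGroup A] (n : ℕ) (e : Fin n ≃ A) (r : ℕ)
    (h : Fin (2 * r + 1) → (A →+ A)),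
    zeroOf (code e h) = (e.symm 0 : ℕ) ∧
    ∀ l : List ℕ, (∀ a ∈ l, a < n) →
      (∀ a ∈ stepL (code e h) l, a < n) ∧ (stepL (code e h) l).length = l.length + 2 * r ∧
      ∀ off : ℤ, cfg e (off + r) (stepL (code e h) l) = ca h (cfg e off l)

/-- JOB word. Proof: digits. First part: the entries are remainders modulo `n ≥ 1` (`A` has an
element). Second part: `c = ∑ i < L, (e.symm (z i)) * n ^ i`. Third part: compare the entries, `dc e`
is injective on the numbers less than `n`. -/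
def S_word : Prop :=
  ∀ (A : Type) [AddCommGroup A] (n : ℕ) (e : Fin n ≃ A) (L : ℕ),
    (∀ c : ℕ, (∀ a ∈ word n L c, a < n) ∧ (word n L c).length = L) ∧
    (∀ z : ℤ → A, (∀ i < 0, z i = 0) → (∀ i : ℤ, (L : ℤ) ≤ i → z i = 0) →
      ∃ c < n ^ L, cfg e 0 (word n L c) = z) ∧
    (∀ (l l' : List ℕ) (off : ℤ), (∀ a ∈ l, a < n) → (∀ a ∈ l', a < n) → l.length = l'.length →
      cfg e off l = cfg e off l' → l = l') ∧
    (∀ k : ℕ, ∀ off : ℤ, cfg e off (reps k (e.symm 0 : ℕ)) = 0) ∧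
    ∀ (l : List ℕ) (s k : ℕ), cfg e 0 l = cfg e s (reps s (e.symm 0 : ℕ) ++ (l ++ reps k (e.symm 0 : ℕ)))

end Pool.Agent.Q206.SO
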