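import Pool.Agent.Q206.SO.Stm

/-!
# The finite descriptions of abelian cellular automata form a computable set: statements
-/

namespace Pool.Agent.Q206.SO

/-- `I` describes some abelian cellular automaton. -/
def IsCode (I : Input) : Prop :=
  ∃ (A : Type) (_ : AddCommGroup A) (n : ℕ) (e : Fin n ≃ A) (r : ℕ)
    (h : Fin (2 * r + 1) → (A →+ A)), I = code e h

/-- A table of `n` numbers less than `n`. -/
def okRow (n : ℕ) (row : List ℕ) : Bool :=
  decide (row.length = n) && row.all fun a => decide (a < n)

/-- The group table is the table of an abelian group. -/
def okTab (n : ℕ) (T : List (List ℕ)) : Bool :=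
  (decide (T.length = n) && T.all fun row => okRow n row) &&
  ((List.range n).all fun a => (List.range n).all fun b => decide (tab2 T a b = tab2 T b a) &&
    (List.range n).all fun c => decide (tab2 T (tab2 T a b) c = tab2 T a (tab2 T b c))) &&
  (List.range n).any fun o => (List.range n).all fun a => decide (tab2 T a o = a) &&
    (List.range n).any fun b => decide (tab2 T a b = o)

/-- The row is the table of an endomorphism of the group. -/
def okHom (n : ℕ) (T : List (List ℕ)) (row : List ℕ) : Bool :=
  okRow n row && (List.range n).all fun a => (List.range n).all fun b =>
    decide (row.getD (tab2 T a b) 0 = tab2 T (row.getD a 0) (row.getD b 0))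

/-- The test whether `I` is a description. -/
def valid (I : Input) : Bool :=
  (okTab I.1 I.2.1 && decide (I.2.2.2.length = 2 * I.2.2.1 + 1)) &&
    I.2.2.2.all fun row => okHom I.1 I.2.1 row

/-- JOB valc. Everything is primitive recursive (`Primrec`, `PrimrecPred.forall_mem_list`,
`PrimrecRel.exists_lt`, …). -/
def S_valc : Prop := Computable valid

/-- JOB vali. Proof: from right to left by the definitions of `code`, `tab2`. From left to right:
`n = I.1`; take `A = Fin n` with the addition read off the table (commutative, associative, with a
zero `o` and negatives by `okTab`, so an `AddCommGroup`), `e` the identity, and `h j` the maps given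
by the rows of `I.2.2.2` (additive by `okHom`); then the tables of `code e h` are those of `I`
entry by entry (`List.ext_getElem`). -/
def S_vali : Prop := ∀ I : Input, valid I = true ↔ IsCode I

end Pool.Agent.Q206.SO
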